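import Pool.Agent.H773R2.UK.Defs

namespace H773X

open Finset Pool.Agent.Results.MP_9dddc4_co.UkExponent

theorem GRR : S_GRR := by
  intro r n k M hn hk hM h
  set Φ : ℕ → ℝ := fun e => if e = 0 then 0 else M * (1 + Real.log e) with hΦ
  have hΦ0 : Φ 0 = 0 := by simp [hΦ]
  have hΦp : ∀ e, e ≠ 0 → Φ e = M * (1 + Real.log e) := fun e he => by simp [hΦ, he]
  have hM0 : 0 < M := by linarith
  have hn1 : (1 : ℝ) ≤ n := by exact_mod_cast hn
  have hlogn : 0 ≤ Real.log n := Real.log_nonneg hn1
  apply U_le hk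
  intro e H hH hc
  obtain ⟨t, ht, hte⟩ := greedy (k := k) (n := n) (r := r) hk Φ (by
    intro e he H hH hc
    obtain ⟨s, hs, hcom, hes⟩ := h H e he hH hc
    refine ⟨s, hs, hcom, ?_⟩
    have hse : s ≤ e := by
      have := hcom.le_card ⟨0, hk⟩
      rwa [hc] at this
    have he0 : e ≠ 0 := by omega
    have he1 : (1 : ℝ) ≤ e := by exact_mod_cast he
    rw [hΦp e he0]
    by_cases h0 : e - s = 0
    · rw [h0, hΦ0]
      have h1 : 0 ≤ Real.log e := Real.log_nonneg he1
      nlinarith
    · rw [hΦp _ h0]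
      have hpos : (0 : ℝ) < ((e - s : ℕ) : ℝ) := by
        exact_mod_cast Nat.pos_of_ne_zero h0
      have hcast : ((e - s : ℕ) : ℝ) = (e : ℝ) - s := by
        rw [Nat.cast_sub hse]
      have hlog : Real.log ((e - s : ℕ) : ℝ) - Real.log e ≤ ((e - s : ℕ) : ℝ) / e - 1 := by
        rw [← Real.log_div hpos.ne' (by positivity)]
        exact Real.log_le_sub_one_of_pos (by positivity)
      have h2 : ((e - s : ℕ) : ℝ) / e - 1 = -((s : ℝ) / e) := by
        rw [hcast]
        field_simp
        ring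
      rw [h2] at hlog
      have h3 : 1 ≤ M * ((s : ℝ) / e) := by
        rw [← mul_div_assoc, le_div_iff₀ (by positivity)]
        linarith
      have h4 : M * (Real.log ((e - s : ℕ) : ℝ) - Real.log e) ≤ M * (-((s : ℝ) / e)) :=
        mul_le_mul_of_nonneg_left hlog hM0.le
      linarith) e H hH hc
  refine ⟨t, ht, hte.trans ?_⟩
  rw [hΦ0, sub_zero]
  by_cases he0 : e = 0
  · rw [he0, hΦ0]
    positivity
  · rw [hΦp e he0]
    apply mul_le_mul_of_nonneg_left _ hM0.le
    have he : e ≤ n ^ r := by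
      have h1 : (H ⟨0, hk⟩) ⊆ powersetCard r (univ : Finset (Fin n)) := by
        intro x hx
        rw [mem_powersetCard]
        exact ⟨subset_univ _, hH _ x hx⟩
      have h2 := card_le_card h1
      rw [card_powersetCard, card_univ, Fintype.card_fin, hc] at h2
      exact h2.trans (Nat.choose_le_pow n r)
    have he' : (e : ℝ) ≤ (n : ℝ) ^ r := by exact_mod_cast he
    have hepos : (0 : ℝ) < e := by exact_mod_cast Nat.pos_of_ne_zero he0
    have h3 := Real.log_le_log hepos he'
    rw [Real.log_pow] at h3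
    linarith

end H773X
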