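import Pool.Agent.H773R2.UK.Defs

/-! Task BAS (helper81): cardinality facts on images of projections. -/

namespace H773X

open Finset

theorem BAS_mm_swap {r n : ℕ} (S : Tp r n) (a b : Fin r) : mm S a b = mm S b a := by
  unfold mm
  have h : S.image (fun p => (p b, p a)) = (S.image (fun p => (p a, p b))).image Prod.swap := by
    rw [image_image]
    rfl
  rw [h, card_image_of_injective _ Prod.swap_injective]

theorem BAS_mm_le {r n : ℕ} (S : Tp r n) (a b : Fin r) : mm S a b ≤ nn S a * nn S b := by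
  unfold mm nn
  rw [← card_product]
  refine card_le_card fun x hx => ?_
  rw [mem_image] at hx
  obtain ⟨p, hp, rfl⟩ := hx
  rw [mem_product]
  exact ⟨mem_image_of_mem _ hp, mem_image_of_mem _ hp⟩

theorem BAS_nn_le {r n : ℕ} (S : Tp r n) (a : Fin r) : nn S a ≤ n :=
  (card_le_univ _).trans_eq (Fintype.card_fin n)

theorem BAS_prod {r n : ℕ} (S : Tp r n) (a b : Fin r) :
    S.card ≤ mm S a b * ∏ c ∈ univ.filter (fun c => c ≠ a ∧ c ≠ b), nn S c := by
  unfold mm nn
  rw [← card_pi, ← card_product]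
  refine card_le_card_of_injOn (fun p => ((p a, p b), fun c _ => p c)) ?_ ?_
  · intro p hp
    simp only [coe_product, coe_image, Set.mem_prod, Set.mem_image, mem_coe, mem_pi]
    exact ⟨⟨p, hp, rfl⟩, fun c _ => mem_image_of_mem (fun p : Fin r → Fin n => p c) hp⟩
  · intro p _ q _ h
    simp only [Prod.mk.injEq] at h
    obtain ⟨⟨h1, h2⟩, h3⟩ := h
    funext i
    by_cases hia : i = a
    · subst hia
      exact h1
    by_cases hib : i = b
    · subst hib
      exact h2
    exact congrFun (congrFun h3 i) (by simp [hia, hib])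

theorem BAS_card2 {r : ℕ} (a b : Fin r) (hab : a ≠ b) :
    (univ.filter (fun c : Fin r => c ≠ a ∧ c ≠ b)).card = r - 2 := by
  have h : univ.filter (fun c : Fin r => c ≠ a ∧ c ≠ b) = univ \ {a, b} := by
    ext c
    simp
  rw [h, card_sdiff_of_subset (subset_univ _), card_univ, Fintype.card_fin, card_pair hab]

theorem BAS_card4 {r : ℕ} (a b a' b' : Fin r) (h1 : a ≠ b) (h2 : a ≠ a') (h3 : a ≠ b')
    (h4 : b ≠ a') (h5 : b ≠ b') (h6 : a' ≠ b') :
    (univ.filter (fun c : Fin r => c ≠ a ∧ c ≠ b ∧ c ≠ a' ∧ c ≠ b')).card = r - 4 := by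
  have h : univ.filter (fun c : Fin r => c ≠ a ∧ c ≠ b ∧ c ≠ a' ∧ c ≠ b')
      = univ \ {a, b, a', b'} := by
    ext c
    simp
  have hc : ({a, b, a', b'} : Finset (Fin r)).card = 4 := by
    rw [card_insert_of_notMem, card_insert_of_notMem, card_insert_of_notMem, card_singleton]
    · simpa using h6
    · simpa using ⟨h4, h5⟩
    · simpa using ⟨h1, h2, h3⟩
  rw [h, card_sdiff_of_subset (subset_univ _), card_univ, Fintype.card_fin, hc]

theorem BAS_two {r n : ℕ} (S : Tp r n) (a b a' b' : Fin r) :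
    S.card ≤ mm S a b * mm S a' b' *
      n ^ (univ.filter (fun c : Fin r => c ≠ a ∧ c ≠ b ∧ c ≠ a' ∧ c ≠ b')).card := by
  have hpi : n ^ (univ.filter (fun c : Fin r => c ≠ a ∧ c ≠ b ∧ c ≠ a' ∧ c ≠ b')).card
      = ((univ.filter (fun c : Fin r => c ≠ a ∧ c ≠ b ∧ c ≠ a' ∧ c ≠ b')).pi
          (fun _ => (univ : Finset (Fin n)))).card := by
    rw [card_pi]
    simp
  rw [hpi]
  unfold mm
  rw [← card_product, ← card_product]
  refine card_le_card_of_injOn
    (fun p => (((p a, p b), (p a', p b')), fun c _ => p c)) ?_ ?_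
  · intro p hp
    simp only [coe_product, coe_image, Set.mem_prod, Set.mem_image, mem_coe, mem_pi]
    exact ⟨⟨⟨p, hp, rfl⟩, ⟨p, hp, rfl⟩⟩, fun c _ => mem_univ _⟩
  · intro p _ q _ h
    simp only [Prod.mk.injEq] at h
    obtain ⟨⟨⟨h1, h2⟩, ⟨h3, h4⟩⟩, h5⟩ := h
    funext i
    by_cases hia : i = a
    · subst hia
      exact h1
    by_cases hib : i = b
    · subst hib
      exact h2
    by_cases hia' : i = a'
    · subst hia'
      exact h3
    by_cases hib' : i = b'
    · subst hib'
      exact h4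
    exact congrFun (congrFun h5 i) (by simp [hia, hib, hia', hib'])

theorem BAS_all {r n : ℕ} (S : Tp r n) : S.card ≤ ∏ a, nn S a := by
  unfold nn
  rw [← Fintype.card_piFinset]
  refine card_le_card fun p hp => ?_
  rw [Fintype.mem_piFinset]
  intro a
  exact mem_image_of_mem (fun p : Fin r → Fin n => p a) hp

theorem BAS : S_BAS := by
  intro r n S
  refine ⟨BAS_nn_le S, BAS_mm_swap S, BAS_mm_le S, fun a b hab => ?_, fun a b _ => BAS_prod S a b,
    fun a b a' b' h1 h2 h3 h4 h5 h6 => ?_, BAS_all S, fun hS a b => ⟨?_, ?_⟩⟩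
  · refine (BAS_prod S a b).trans (Nat.mul_le_mul_left _ ?_)
    refine (prod_le_pow_card _ _ n fun c _ => BAS_nn_le S c).trans_eq ?_
    rw [BAS_card2 a b hab]
  · have h := BAS_two S a b a' b'
    rwa [BAS_card4 a b a' b' h1 h2 h3 h4 h5 h6] at h
  · exact card_pos.2 (hS.image _)
  · exact card_pos.2 (hS.image _)

end H773X
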