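import Pool.Agent.H773R2.UK.Defs

namespace H773X

theorem BTB : S_BTB := by
  intro r k hr hk
  have hr' : (3 : ℝ) ≤ r := by exact_mod_cast hr
  have hk' : 2 * (r : ℝ) - 3 ≤ k := by
    have h : 2 * r ≤ k + 3 := by omega
    have : (2 * r : ℝ) ≤ k + 3 := by exact_mod_cast h
    linarith
  have hk3 : (3 : ℝ) ≤ k := by linarith
  have hpos : (0 : ℝ) < (r : ℝ) * k - 1 := by nlinarith
  unfold bt
  constructor
  · rw [le_div_iff₀ hpos]
    nlinarith [mul_nonneg (by linarith : (0 : ℝ) ≤ r) (by linarith : (0 : ℝ) ≤ (k : ℝ) - (2 * r - 3))]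
  · rw [div_le_iff₀ hpos]
    nlinarith [mul_nonneg (by linarith : (0 : ℝ) ≤ (r : ℝ) - 1) (by linarith : (0 : ℝ) ≤ (r : ℝ) - 1)]

end H773X
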