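import Pool.Agent.H773R2.UK.Defs

namespace H773X

open Finset Pool.Agent.Results.MP_9dddc4_co.UkExponent

theorem COMR (h : S_TEC) : S_COMR := by
  intro k n r t u w H hk hH
  rw [← h r t u w]
  exact common_of_emb hk (TE r t u w) H hH

end H773X
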