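import Pool.Agent.Results.MP_9dddc4_co.UkExponent

/-! The exponent of `U_k(n,r)` for `k ≥ 2r-3`: definitions and the statements of all tasks. -/

set_option linter.unusedVariables false

namespace H773X

open Finset Pool.Agent.Results.MP_9dddc4_co.UkExponent

/-- an edge set on the vertex set `Fin n` -/
abbrev ES (n : ℕ) := Finset (Finset (Fin n))

/-- sets of `r`-tuples of vertices, indexed by the `r` roles -/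
abbrev Tp (r n : ℕ) := Finset (Fin r → Fin n)

/-- number of `a`-vertices -/
def nn {r n : ℕ} (S : Tp r n) (a : Fin r) : ℕ := (S.image (fun p => p a)).card

/-- number of `(a,b)`-pairs -/
def mm {r n : ℕ} (S : Tp r n) (a b : Fin r) : ℕ := (S.image (fun p => (p a, p b))).card

/-- degree -/
def dg {r n : ℕ} (S : Tp r n) (a : Fin r) (v : Fin n) : ℕ := (S.filter (fun p => p a = v)).card

/-- codegree -/
def cg {r n : ℕ} (S : Tp r n) (a b : Fin r) (v v' : Fin n) : ℕ :=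
  (S.filter (fun p => p a = v ∧ p b = v')).card

/-- number of dyadic classes of one statistic -/
def BB (r n : ℕ) : ℕ := Nat.log 2 (n ^ r) + 1

/-- number of classes of all statistics -/
def Lam (r n : ℕ) : ℕ := (BB r n) ^ (r + r ^ 2)

/-- the polylogarithmic factor -/
def ZZ (r n : ℕ) : ℕ := 2 * r ^ r * (Lam r n) ^ 2 * (32 * r * Lam r n) ^ r

/-- vertices of the tree-like `r`-graph `T(t,u,w)`: `t` roots, `u` middle sets of `r-2` vertices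
for every root, `w` leaves for every middle set -/
abbrev TV (r t u w : ℕ) := Fin t ⊕ ((Fin t × Fin u × Fin (r - 2)) ⊕ (Fin t × Fin u × Fin w))

/-- an edge of `T(t,u,w)` -/
def TEdge (r t u w : ℕ) (q : Fin t × Fin u × Fin w) : Finset (TV r t u w) :=
  insert (Sum.inl q.1) (insert (Sum.inr (Sum.inr q))
    (univ.image (fun s : Fin (r - 2) => (Sum.inr (Sum.inl (q.1, q.2.1, s)) : TV r t u w))))

/-- the edges of `T(t,u,w)` -/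
def TE (r t u w : ℕ) : Finset (Finset (TV r t u w)) := univ.image (TEdge r t u w)

/-- `H` contains `T(t,u,w)` -/
def ContainsR {n : ℕ} (H : ES n) (r t u w : ℕ) : Prop :=
  ∃ φ : TV r t u w → Fin n, Function.Injective φ ∧ img φ (TE r t u w) ⊆ H

/-- the exponent -/
noncomputable def bt (r k : ℕ) : ℝ := (r : ℝ) * (r - 1) * (k - 1) / (r * k - 1)

/-- TEC -/
def S_TEC : Prop := ∀ r t u w : ℕ, (TE r t u w).card = t * u * w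

/-- COMR -/
def S_COMR : Prop := ∀ (k n r t u w : ℕ) (H : Fin k → ES n), 0 < k →
  (∀ i, ContainsR (H i) r t u w) → Common H (t * u * w)

/-- TRI: `r`-partition -/
def S_TRI : Prop := ∀ (r n : ℕ) (H : ES n), 1 ≤ r → IsRGraph r H →
  ∃ (f : Fin n → Fin r) (S : Tp r n), (∀ p ∈ S, ∀ a, f (p a) = a) ∧
    (∀ p ∈ S, (univ.image p : Finset (Fin n)) ∈ H) ∧ H.card ≤ r ^ r * S.card

/-- RG0: dyadic class of one statistic: fibre sizes. -/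
def S_RG0 : Prop := ∀ (α β : Type) (_ : DecidableEq α) (_ : DecidableEq β) (S S1 : Finset α)
  (g : α → β) (κ : ℕ), S1 ⊆ S →
  (∀ p ∈ S1, Nat.log 2 ((S.filter (fun q => g q = g p)).card) = κ) →
  (∀ v, (S1.filter (fun q => g q = v)).card ≤ 2 ^ (κ + 1)) ∧
    2 ^ (κ + 1) * (S1.image g).card ≤ 2 * S.card

/-- RG1: regularisation by pigeonhole. -/
def S_RG1 : Prop := ∀ (r n : ℕ) (S : Tp r n), 1 ≤ n → S.Nonempty →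
  ∃ (S1 : Tp r n) (Δ : Fin r → ℕ) (Γ : Fin r → Fin r → ℕ), S1 ⊆ S ∧ S1.Nonempty ∧
    S.card ≤ Lam r n * S1.card ∧
    (∀ a v, dg S1 a v ≤ Δ a) ∧ (∀ a, Δ a * nn S1 a ≤ 2 * Lam r n * S1.card) ∧
    (∀ a b v v', a ≠ b → cg S1 a b v v' ≤ Γ a b) ∧
    (∀ a b, a ≠ b → Γ a b * mm S1 a b ≤ 2 * Lam r n * S1.card)

/-- CS: the degree bound and Cauchy-Schwarz. -/
def S_CS : Prop := ∀ (r n : ℕ) (S : Tp r n) (Δ : ℕ) (a b c : Fin r), a ≠ b → a ≠ c → b ≠ c →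
  (∀ v, dg S a v ≤ Δ) → S.card ^ 2 ≤ Δ * mm S a b * mm S a c * n ^ (r - 3)

/-- BAS: trivial facts. -/
def S_BAS : Prop := ∀ (r n : ℕ) (S : Tp r n),
  (∀ a, nn S a ≤ n) ∧ (∀ a b, mm S a b = mm S b a) ∧ (∀ a b, mm S a b ≤ nn S a * nn S b) ∧
  (∀ a b, a ≠ b → S.card ≤ mm S a b * n ^ (r - 2)) ∧
  (∀ a b, a ≠ b → S.card ≤ mm S a b * ∏ c ∈ univ.filter (fun c => c ≠ a ∧ c ≠ b), nn S c) ∧
  (∀ a b a' b', a ≠ b → a ≠ a' → a ≠ b' → b ≠ a' → b ≠ b' → a' ≠ b' →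
    S.card ≤ mm S a b * mm S a' b' * n ^ (r - 4)) ∧
  (S.card ≤ ∏ a, nn S a) ∧ (S.Nonempty → ∀ a b, 0 < nn S a ∧ 0 < mm S a b)

/-- EM1: one root: `S'` is what is left of `S` after deleting used vertices. -/
def S_EM1 : Prop := ∀ (r n : ℕ) (S S' : Tp r n) (a c : Fin r) (u w : ℕ) (Γ : Fin r → ℕ),
  a ≠ c → 1 ≤ u → 1 ≤ w → S.Nonempty → S' ⊆ S → 5 * S.card ≤ 8 * S'.card →
  (∀ b, b ≠ a → ∀ v v', cg S a b v v' ≤ Γ b) →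
  (∀ b, b ≠ a → b ≠ c → 16 * r * u * Γ b * nn S a ≤ S.card) →
  16 * (u * w) * Γ c * nn S a ≤ S.card → 2 * (w - 1) * n ^ (r - 1) < S.card →
  ∃ (x : Fin n) (y : Fin u → Fin r → Fin n) (z : Fin u → Fin w → Fin n),
    (∀ b, b ≠ a → b ≠ c → Function.Injective (fun j => y j b)) ∧
    Function.Injective (fun q : Fin u × Fin w => z q.1 q.2) ∧
    ∀ j l, ∃ p ∈ S', p a = x ∧ p c = z j l ∧ ∀ b, b ≠ a → b ≠ c → p b = y j b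

/-- EM2: embedding `T(t,u,w)`. -/
def S_EM2 : Prop := ∀ (r n : ℕ) (S : Tp r n) (a c : Fin r) (t u w : ℕ) (Δ Γ : Fin r → ℕ),
  a ≠ c → 1 ≤ t → 1 ≤ u → 1 ≤ w → S.Nonempty → (∀ b v, dg S b v ≤ Δ b) →
  8 * (t - 1) * Δ a ≤ S.card → (∀ b, b ≠ a → b ≠ c → 8 * r * (t * u) * Δ b ≤ S.card) →
  8 * (t * u * w) * Δ c ≤ S.card →
  (∀ b, b ≠ a → ∀ v v', cg S a b v v' ≤ Γ b) →
  (∀ b, b ≠ a → b ≠ c → 16 * r * u * Γ b * nn S a ≤ S.card) →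
  16 * (u * w) * Γ c * nn S a ≤ S.card → 2 * (w - 1) * n ^ (r - 1) < S.card →
  ∃ (x : Fin t → Fin n) (y : Fin t → Fin u → Fin r → Fin n) (z : Fin t → Fin u → Fin w → Fin n),
    Function.Injective x ∧
    (∀ b, b ≠ a → b ≠ c → Function.Injective (fun q : Fin t × Fin u => y q.1 q.2 b)) ∧
    Function.Injective (fun q : Fin t × Fin u × Fin w => z q.1 q.2.1 q.2.2) ∧
    ∀ i j l, ∃ p ∈ S, p a = x i ∧ p c = z i j l ∧ ∀ b, b ≠ a → b ≠ c → p b = y i j b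

/-- LP: choice of the roles (pure arithmetic). -/
def S_LP : Prop := ∀ (r N E L G t u : ℕ) (ν : Fin r → ℕ) (m : Fin r → Fin r → ℕ),
  3 ≤ r → 1 ≤ L → 3 ≤ G → 1 ≤ t → 1 ≤ u → 1 ≤ E → (∀ a, 1 ≤ ν a ∧ ν a ≤ N) →
  (∀ a b, m a b = m b a) → (∀ a b, 1 ≤ m a b ∧ m a b ≤ ν a * ν b) →
  (∀ a b, a ≠ b → E ≤ m a b * N ^ (r - 2)) →
  (∀ a b, a ≠ b → E ≤ m a b * ∏ c ∈ univ.filter (fun c => c ≠ a ∧ c ≠ b), ν c) →
  (∀ a b a' b', a ≠ b → a ≠ a' → a ≠ b' → b ≠ a' → b ≠ b' → a' ≠ b' →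
    E ≤ m a b * m a' b' * N ^ (r - 4)) →
  (∀ a b c, a ≠ b → a ≠ c → b ≠ c → E * ν a ≤ 2 * L * m a b * m a c * N ^ (r - 3)) →
  E ≤ ∏ a, ν a →
  G * (t - 1) * N ^ (r - 1) ≤ E → 2 * L * G ^ 2 * (t * u) ^ 2 * N ^ (r - 2) ≤ E →
  (G * (t * u * t)) ^ r ≤ E →
  ∃ a c : Fin r, a ≠ c ∧ G * (t - 1) ≤ ν a ∧ (∀ b, b ≠ a → b ≠ c → G * (t * u) ≤ ν b) ∧
    G * (t * u * t) ≤ ν c ∧ (∀ b, b ≠ a → b ≠ c → G * u * ν a ≤ m a b) ∧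
    G * (u * t) * ν a ≤ m a c ∧ 2 * (t - 1) * N ^ (r - 1) < E

/-- UN: the unavoidable hypergraph `T(t,u,t)`. -/
def S_UN : Prop := ∀ (r n : ℕ) (H : ES n) (t u : ℕ), 3 ≤ r → 1 ≤ n → 1 ≤ t → 1 ≤ u →
  IsRGraph r H → ZZ r n * (t - 1) * n ^ (r - 1) ≤ H.card →
  ZZ r n * (t * u) ^ 2 * n ^ (r - 2) ≤ H.card → ZZ r n * (t * u * t) ^ r ≤ H.card →
  ContainsR H r t u t

/-- PAR: choice of the parameters (real arithmetic). -/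
def S_PAR : Prop := ∀ (r n e Z : ℕ) (β : ℝ), 3 ≤ r → 1 ≤ n → 1 ≤ e → 1 ≤ Z →
  (r : ℝ) - 3 / 2 ≤ β → β ≤ r - 1 → e ≤ n ^ r →
  (e : ℝ) ≤ (n : ℝ) ^ ((r : ℝ) * β / (r - 1)) →
  ((e : ℝ) ≤ 2 * Z * (n : ℝ) ^ β) ∨
  ∃ t u : ℕ, 1 ≤ t ∧ 1 ≤ u ∧ Z * (t - 1) * n ^ (r - 1) ≤ e ∧
    Z * (t * u) ^ 2 * n ^ (r - 2) ≤ e ∧ Z * (t * u * t) ^ r ≤ e ∧
    (e : ℝ) ≤ 4 * Z * (n : ℝ) ^ β * ((t * u * t : ℕ) : ℝ)

/-- OVA: arithmetic of the overlay case. -/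
def S_OVA : Prop := ∀ (r n k e d : ℕ), 3 ≤ r → 1 ≤ n → 2 ≤ k → 1 ≤ e →
  (n : ℝ) ^ ((r : ℝ) * bt r k / (r - 1)) ≤ (e : ℝ) → e ^ k ≤ d * (n.choose r) ^ (k - 1) →
  (e : ℝ) ≤ (n : ℝ) ^ (bt r k) * (d : ℝ)

/-- BTB: bounds for the exponent. -/
def S_BTB : Prop := ∀ r k : ℕ, 3 ≤ r → 2 * r - 3 ≤ k → (r : ℝ) - 3 / 2 ≤ bt r k ∧ bt r k ≤ r - 1

/-- GRR: greedy decomposition. -/
def S_GRR : Prop := ∀ (r n k : ℕ) (M : ℝ), 1 ≤ n → 1 ≤ k → 1 ≤ M →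
  (∀ (H : Fin k → ES n) (e : ℕ), 1 ≤ e → (∀ i, IsRGraph r (H i)) → (∀ i, (H i).card = e) →
    ∃ s : ℕ, 1 ≤ s ∧ Common H s ∧ (e : ℝ) ≤ M * s) →
  (U k n r : ℝ) ≤ M * (1 + r * Real.log n)

/-- LOG: the polylogarithmic factor. -/
def S_LOG : Prop := ∀ r : ℕ, 3 ≤ r → ∃ (C : ℝ) (D : ℕ), 0 < C ∧ ∀ n : ℕ, 2 ≤ n →
  4 * (ZZ r n : ℝ) * (1 + r * Real.log n) ≤ C * (Real.log n) ^ D

/-- UPR: the upper bound. -/
def S_UPR : Prop := ∀ r k : ℕ, 3 ≤ r → 2 * r - 3 ≤ k → ∃ (C : ℝ) (D : ℕ), 0 < C ∧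
  ∀ n : ℕ, 2 ≤ n → (U k n r : ℝ) ≤ C * (n : ℝ) ^ (bt r k) * (Real.log n) ^ D

/-- LC: complete `r`-graph against random `r`-graphs. -/
def S_LC : Prop := ∀ r n m T l : ℕ, 3 ≤ r → m ≤ n → 0 < T → m ^ (r * l + r) ≤ T * n ^ (r * l) →
  n ^ (m * l) < 2 ^ T → m.choose r ≤ U (l + 1) n r * T

/-- LOB: the lower bound. -/
def S_LOB : Prop := ∀ r k : ℕ, 3 ≤ r → 2 ≤ k → ∃ c : ℝ, 0 < c ∧ ∀ᶠ n : ℕ in Filter.atTop,
  c * (n : ℝ) ^ (bt r k) / (Real.log n) ^ (1 - ((r : ℝ) - 1) / (r * k - 1)) ≤ (U k n r : ℝ)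

end H773X
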