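import Pool.Agent.H773R2.UK.Defs

set_option autoImplicit false

namespace H773X

open Finset

/-- forget the role `c` -/
def EM1_R {r n : ℕ} (c : Fin r) (x₀ : Fin n) (p : Fin r → Fin n) : Fin r → Fin n :=
  Function.update p c x₀

theorem EM1_R_ne {r n : ℕ} {c b : Fin r} (x₀ : Fin n) (p : Fin r → Fin n) (h : b ≠ c) :
    EM1_R c x₀ p b = p b := Function.update_of_ne h _ _

theorem EM1_ext {r n : ℕ} {c : Fin r} {x₀ : Fin n} {p q : Fin r → Fin n}
    (h : EM1_R c x₀ p = EM1_R c x₀ q) (h2 : p c = q c) : p = q := by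
  funext i
  by_cases hi : i = c
  · subst hi
    exact h2
  · have := congrFun h i
    rwa [EM1_R_ne x₀ p hi, EM1_R_ne x₀ q hi] at this

theorem EM1_count {r n : ℕ} (S : Tp r n) (c : Fin r) (x₀ : Fin n) :
    (S.image (EM1_R c x₀)).card ≤ n ^ (r - 1) := by
  classical
  have h1 : (S.image (EM1_R c x₀)).card ≤
      (univ : Finset ({b : Fin r // b ≠ c} → Fin n)).card := by
    refine Finset.card_le_card_of_injOn (fun q b => q b.1) (fun _ _ => mem_univ _) ?_
    intro p hp q hq hpq
    rw [mem_coe, mem_image] at hp hq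
    obtain ⟨p', -, rfl⟩ := hp
    obtain ⟨q', -, rfl⟩ := hq
    funext i
    by_cases hi : i = c
    · subst hi
      unfold EM1_R
      rw [Function.update_self, Function.update_self]
    · exact congrFun hpq ⟨i, hi⟩
  refine h1.trans (le_of_eq ?_)
  rw [Finset.card_univ, Fintype.card_fun, Fintype.card_fin]
  congr 1
  rw [Fintype.card_subtype_compl, Fintype.card_fin, Fintype.card_subtype_eq]

/-- a root with many remaining edges -/
theorem EM1_centre {r n : ℕ} {S S' : Tp r n} {a c : Fin r} {u w : ℕ} {Γ : Fin r → ℕ}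
    (hac : a ≠ c) (x₀ : Fin n)
    (hS' : S' ⊆ S) (h5 : 5 * S.card ≤ 8 * S'.card)
    (h1 : ∀ b, b ≠ a → b ≠ c → 16 * r * u * Γ b * nn S a ≤ S.card)
    (h2 : 16 * (u * w) * Γ c * nn S a ≤ S.card)
    (h3 : 2 * (w - 1) * n ^ (r - 1) < S.card) :
    ∃ x : Fin n, ((S.image (EM1_R c x₀)).filter (fun q => q a = x)).card * (w - 1) +
      ((∑ b ∈ univ.filter (fun b => b ≠ a ∧ b ≠ c), u * Γ b) + u * w * Γ c) < dg S' a x := by
  by_contra hcon
  push Not at hcon
  have e1 : ∑ x ∈ S.image (fun p => p a), dg S' a x = S'.card := by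
    unfold dg
    exact (Finset.card_eq_sum_card_fiberwise (fun p hp =>
      Finset.mem_image_of_mem _ (hS' hp))).symm
  have e2 : ∑ x ∈ S.image (fun p => p a),
      ((S.image (EM1_R c x₀)).filter (fun q => q a = x)).card = (S.image (EM1_R c x₀)).card := by
    refine (Finset.card_eq_sum_card_fiberwise ?_).symm
    intro q hq
    rw [Finset.mem_coe, Finset.mem_image] at hq ⊢
    obtain ⟨p, hp, rfl⟩ := hq
    exact ⟨p, hp, (EM1_R_ne x₀ p hac).symm⟩
  have e3 := Finset.sum_le_sum (fun x (_ : x ∈ S.image (fun p => p a)) => hcon x)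
  rw [e1, Finset.sum_add_distrib, ← Finset.sum_mul, e2, Finset.sum_const, smul_eq_mul] at e3
  have e4 : (S.image (fun p => p a)).card = nn S a := rfl
  rw [e4] at e3
  have hr : 0 < r := a.pos
  set Sg := ∑ b ∈ univ.filter (fun b => b ≠ a ∧ b ≠ c), u * Γ b with hSg
  have e6 : 16 * (nn S a * Sg) ≤ S.card := by
    refine Nat.le_of_mul_le_mul_left ?_ hr
    have e7 : r * (16 * (nn S a * Sg)) =
        ∑ b ∈ univ.filter (fun b => b ≠ a ∧ b ≠ c), 16 * r * u * Γ b * nn S a := by
      rw [hSg, Finset.mul_sum, Finset.mul_sum, Finset.mul_sum]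
      refine Finset.sum_congr rfl (fun b _ => ?_)
      ring
    rw [e7]
    have e8 : ∑ b ∈ univ.filter (fun b : Fin r => b ≠ a ∧ b ≠ c), 16 * r * u * Γ b * nn S a ≤
        ∑ b ∈ univ.filter (fun b : Fin r => b ≠ a ∧ b ≠ c), S.card := by
      refine Finset.sum_le_sum (fun b hb => ?_)
      rw [mem_filter] at hb
      exact h1 b hb.2.1 hb.2.2
    refine e8.trans ?_
    rw [Finset.sum_const, smul_eq_mul]
    refine Nat.mul_le_mul_right _ ?_
    refine (Finset.card_le_univ _).trans ?_
    rw [Fintype.card_fin]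
  have e9 : 16 * (nn S a * (u * w * Γ c)) = 16 * (u * w) * Γ c * nn S a := by ring
  have e10 : (S.image (EM1_R c x₀)).card * (w - 1) ≤ n ^ (r - 1) * (w - 1) :=
    Nat.mul_le_mul_right _ (EM1_count S c x₀)
  have e11 : 2 * (w - 1) * n ^ (r - 1) = 2 * (n ^ (r - 1) * (w - 1)) := by ring
  rw [Nat.mul_add] at e3
  omega

theorem EM1 : S_EM1 := by
  classical
  intro r n S S' a c u w Γ hac hu hw hS hS' h5 hΓ h1 h2 h3
  obtain ⟨p₀, hp₀⟩ := id hS
  set x₀ := p₀ a with hx₀
  obtain ⟨x, hx⟩ := EM1_centre hac x₀ hS' h5 h1 h2 h3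
  set mid := univ.filter (fun b : Fin r => b ≠ a ∧ b ≠ c) with hmid
  set T := (S.image (EM1_R c x₀)).filter (fun q => q a = x) with hT
  set Q := S'.filter (fun p => p a = x) with hQ
  have hQc : dg S' a x = Q.card := rfl
  have key : ∀ j ≤ u, ∃ (B : ℕ → Fin r → Fin n) (C : ℕ → ℕ → Fin n),
      (∀ i < j, ∀ l < w, ∃ p ∈ S', p a = x ∧ p c = C i l ∧ ∀ b, b ≠ a → b ≠ c → p b = B i b) ∧
      (∀ i < j, ∀ i' < j, ∀ b, b ≠ a → b ≠ c → B i b = B i' b → i = i') ∧
      (∀ i < j, ∀ i' < j, ∀ l < w, ∀ l' < w, C i l = C i' l' → i = i' ∧ l = l') := by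
    intro j
    induction j with
    | zero =>
      intro _
      exact ⟨fun _ _ => x, fun _ _ => x, fun i hi => by omega, fun i hi => by omega,
        fun i hi => by omega⟩
    | succ j ih =>
      intro hj
      obtain ⟨B, C, hBC, hB, hC⟩ := ih (by omega)
      set UB : Fin r → Finset (Fin n) := fun b => (range j).image (fun i => B i b) with hUB
      set UC := ((range j) ×ˢ (range w)).image (fun q => C q.1 q.2) with hUC
      have cUB : ∀ b, (UB b).card ≤ j := by
        intro b
        refine Finset.card_image_le.trans ?_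
        rw [card_range]
      have cUC : UC.card ≤ j * w := by
        refine Finset.card_image_le.trans ?_
        rw [card_product, card_range, card_range]
      set Q' := Q.filter (fun p => (∀ b, b ≠ a → b ≠ c → p b ∉ UB b) ∧ p c ∉ UC) with hQ'
      have hsub : Q ⊆ (Q' ∪ mid.biUnion (fun b => (UB b).biUnion
            (fun y => S.filter (fun p => p a = x ∧ p b = y)))) ∪
          UC.biUnion (fun z => S.filter (fun p => p a = x ∧ p c = z)) := by
        intro p hp
        have hp2 := hp
        rw [hQ, mem_filter] at hp2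
        by_cases hb : ∀ b, b ≠ a → b ≠ c → p b ∉ UB b
        · by_cases hc : p c ∈ UC
          · refine mem_union_right _ ?_
            rw [mem_biUnion]
            exact ⟨p c, hc, mem_filter.mpr ⟨hS' hp2.1, hp2.2, rfl⟩⟩
          · exact mem_union_left _ (mem_union_left _ (mem_filter.mpr ⟨hp, hb, hc⟩))
        · push Not at hb
          obtain ⟨b, hba, hbc, hbU⟩ := hb
          refine mem_union_left _ (mem_union_right _ ?_)
          rw [mem_biUnion]
          refine ⟨b, mem_filter.mpr ⟨mem_univ _, hba, hbc⟩, ?_⟩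
          rw [mem_biUnion]
          exact ⟨p b, hbU, mem_filter.mpr ⟨hS' hp2.1, hp2.2, rfl⟩⟩
      have c1 : Q.card ≤ Q'.card + (∑ b ∈ mid, u * Γ b) + u * w * Γ c := by
        refine (card_le_card hsub).trans ((card_union_le _ _).trans ?_)
        have d1 : (mid.biUnion (fun b => (UB b).biUnion
            (fun y => S.filter (fun p => p a = x ∧ p b = y)))).card ≤ ∑ b ∈ mid, u * Γ b := by
          refine card_biUnion_le.trans (Finset.sum_le_sum (fun b hb => ?_))
          rw [hmid, mem_filter] at hb
          refine (card_biUnion_le_card_mul (UB b) _ (Γ b)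
            (fun y _ => hΓ b hb.2.1 x y)).trans ?_
          exact Nat.mul_le_mul_right _ ((cUB b).trans (by omega))
        have d2 : (UC.biUnion (fun z => S.filter (fun p => p a = x ∧ p c = z))).card ≤
            u * w * Γ c := by
          refine (card_biUnion_le_card_mul UC _ (Γ c) (fun z _ => hΓ c hac.symm x z)).trans ?_
          refine Nat.mul_le_mul_right _ (cUC.trans (Nat.mul_le_mul_right _ (by omega)))
        have d3 := card_union_le Q' (mid.biUnion (fun b => (UB b).biUnion
            (fun y => S.filter (fun p => p a = x ∧ p b = y))))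
        omega
      have c2 : T.card * (w - 1) < Q'.card := by omega
      obtain ⟨y, hy, hfib⟩ := Finset.exists_lt_card_fiber_of_mul_lt_card_of_maps_to
        (s := Q') (t := T) (f := EM1_R c x₀) (n := w - 1) (by
          intro p hp
          rw [hQ', mem_filter, hQ, mem_filter] at hp
          rw [hT, mem_filter]
          exact ⟨mem_image_of_mem _ (hS' hp.1.1), (EM1_R_ne x₀ p hac).trans hp.1.2⟩) c2
      set Fb := Q'.filter (fun p => EM1_R c x₀ p = y) with hFb
      have hFbm : ∀ p ∈ Fb, p ∈ S' ∧ p a = x ∧ EM1_R c x₀ p = y ∧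
          (∀ b, b ≠ a → b ≠ c → p b ∉ UB b) ∧ p c ∉ UC := by
        intro p hp
        rw [hFb, mem_filter, hQ', mem_filter, hQ, mem_filter] at hp
        exact ⟨hp.1.1.1, hp.1.1.2, hp.2, hp.1.2.1, hp.1.2.2⟩
      set Z := Fb.image (fun p => p c) with hZ
      have hZc : w ≤ Z.card := by
        rw [hZ, card_image_of_injOn]
        · omega
        · intro p hp p' hp' hpp
          have e1 := hFbm p hp
          have e2 := hFbm p' hp'
          exact EM1_ext (e1.2.2.1.trans e2.2.2.1.symm) hpp
      obtain ⟨g, hg1, hg2⟩ : ∃ g : ℕ → Fin n, (∀ l < w, g l ∈ Z) ∧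
          ∀ l < w, ∀ l' < w, g l = g l' → l = l' := by
        refine ⟨fun l => if h : l < Z.card then Z.orderEmbOfFin rfl ⟨l, h⟩ else x, ?_, ?_⟩
        · intro l hl
          simp only
          rw [dif_pos (by omega)]
          exact Finset.orderEmbOfFin_mem _ _ _
        · intro l hl l' hl' h
          simp only at h
          rw [dif_pos (by omega), dif_pos (by omega)] at h
          have := (Z.orderEmbOfFin rfl).injective h
          simpa using this
      have hgm : ∀ l < w, ∃ p ∈ S', p a = x ∧ (∀ b, b ≠ a → b ≠ c → p b = y b) ∧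
          p c = g l ∧ p c ∉ UC := by
        intro l hl
        have h := hg1 l hl
        rw [hZ, mem_image] at h
        obtain ⟨p, hp, hpc⟩ := h
        have e1 := hFbm p hp
        refine ⟨p, e1.1, e1.2.1, ?_, hpc, e1.2.2.2.2⟩
        intro b _ hbc
        rw [← e1.2.2.1, EM1_R_ne x₀ p hbc]
      have hyU : ∀ b, b ≠ a → b ≠ c → y b ∉ UB b := by
        intro b hba hbc
        obtain ⟨p, hp⟩ := Finset.card_pos.mp (show 0 < Fb.card by omega)
        have e1 := hFbm p hp
        rw [← e1.2.2.1, EM1_R_ne x₀ p hbc]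
        exact e1.2.2.2.1 b hba hbc
      have hgU : ∀ l < w, g l ∉ UC := by
        intro l hl
        obtain ⟨p, -, -, -, h4, h5⟩ := hgm l hl
        rw [← h4]
        exact h5
      refine ⟨Function.update B j y, Function.update C j g, ?_, ?_, ?_⟩
      · intro i hi l hl
        rcases Nat.lt_succ_iff_lt_or_eq.mp hi with h | h
        · rw [Function.update_of_ne (by omega), Function.update_of_ne (by omega)]
          exact hBC i h l hl
        · subst h
          rw [Function.update_self, Function.update_self]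
          obtain ⟨p, h1, h2, h3, h4, -⟩ := hgm l hl
          exact ⟨p, h1, h2, h4, h3⟩
      · intro i hi i' hi' b hba hbc h
        rcases Nat.lt_succ_iff_lt_or_eq.mp hi with h6 | h6 <;>
          rcases Nat.lt_succ_iff_lt_or_eq.mp hi' with h7 | h7
        · rw [Function.update_of_ne (by omega), Function.update_of_ne (by omega)] at h
          exact hB i h6 i' h7 b hba hbc h
        · subst h7
          rw [Function.update_self, Function.update_of_ne (by omega)] at h
          exact absurd (h ▸ mem_image_of_mem (fun i => B i b) (mem_range.mpr h6))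
            (hyU b hba hbc)
        · subst h6
          rw [Function.update_self, Function.update_of_ne (by omega)] at h
          exact absurd (h.symm ▸ mem_image_of_mem (fun i => B i b) (mem_range.mpr h7))
            (hyU b hba hbc)
        · omega
      · intro i hi i' hi' l hl l' hl' h
        rcases Nat.lt_succ_iff_lt_or_eq.mp hi with h6 | h6 <;>
          rcases Nat.lt_succ_iff_lt_or_eq.mp hi' with h7 | h7
        · rw [Function.update_of_ne (by omega), Function.update_of_ne (by omega)] at h
          exact hC i h6 i' h7 l hl l' hl' h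
        · subst h7
          rw [Function.update_self, Function.update_of_ne (by omega)] at h
          exact absurd (h ▸ mem_image_of_mem (fun q : ℕ × ℕ => C q.1 q.2)
            (mem_product.mpr ⟨mem_range.mpr h6, mem_range.mpr hl⟩ :
              (i, l) ∈ (range i') ×ˢ (range w))) (hgU l' hl')
        · subst h6
          rw [Function.update_self, Function.update_of_ne (by omega)] at h
          exact absurd (h.symm ▸ mem_image_of_mem (fun q : ℕ × ℕ => C q.1 q.2)
            (mem_product.mpr ⟨mem_range.mpr h7, mem_range.mpr hl'⟩ :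
              (i', l') ∈ (range i) ×ˢ (range w))) (hgU l hl)
        · subst h6
          subst h7
          rw [Function.update_self] at h
          exact ⟨rfl, hg2 l hl l' hl' h⟩
  obtain ⟨B, C, hBC, hB, hC⟩ := key u le_rfl
  refine ⟨x, fun j => B j, fun j l => C j l, ?_, ?_, ?_⟩
  · intro b hba hbc i i' h
    exact Fin.ext (hB i i.2 i' i'.2 b hba hbc h)
  · rintro ⟨i, l⟩ ⟨i', l'⟩ h
    have := hC i i.2 i' i'.2 l l.2 l' l'.2 h
    exact Prod.ext (Fin.ext this.1) (Fin.ext this.2)
  · intro j l
    exact hBC j j.2 l l.2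

end H773X
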