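import Pool.Agent.H773R2.UK.Defs

namespace H773X

open Finset

theorem EM2_del {r n : ℕ} (S : Tp r n) (a : Fin r) (U : Finset (Fin n)) (Δ m : ℕ)
    (hΔ : ∀ v, dg S a v ≤ Δ) (hU : U.card ≤ m) :
    (S.filter (fun p => p a ∈ U)).card ≤ m * Δ := by
  classical
  have h1 : S.filter (fun p => p a ∈ U) ⊆ U.biUnion (fun v => S.filter (fun p => p a = v)) := by
    intro p hp
    rw [mem_filter] at hp
    rw [mem_biUnion]
    exact ⟨p a, hp.2, by rw [mem_filter]; exact ⟨hp.1, rfl⟩⟩
  calc (S.filter (fun p => p a ∈ U)).card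
      ≤ (U.biUnion (fun v => S.filter (fun p => p a = v))).card := card_le_card h1
    _ ≤ ∑ v ∈ U, (S.filter (fun p => p a = v)).card := card_biUnion_le
    _ ≤ ∑ v ∈ U, Δ := sum_le_sum (fun v _ => hΔ v)
    _ = U.card * Δ := by rw [sum_const, smul_eq_mul]
    _ ≤ m * Δ := Nat.mul_le_mul_right _ hU

/-- sum of the deleted parts -/
theorem EM2_sum {r : ℕ} (a c : Fin r) (hac : a ≠ c) (D : Fin r → ℕ) (s : ℕ) (ha : 8 * D a ≤ s)
    (hc : 8 * D c ≤ s) (hb : ∀ b, b ≠ a → b ≠ c → 8 * r * D b ≤ s) : 8 * ∑ b, D b ≤ 3 * s := by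
  classical
  have hr : 0 < r := Nat.pos_of_ne_zero (fun h => by subst h; exact a.elim0)
  have hmem : c ∈ (univ : Finset (Fin r)).erase a := mem_erase.2 ⟨hac.symm, mem_univ _⟩
  have e1 := add_sum_erase (univ : Finset (Fin r)) D (mem_univ a)
  have e2 := add_sum_erase ((univ : Finset (Fin r)).erase a) D hmem
  have e3 : r * (8 * ∑ b ∈ ((univ : Finset (Fin r)).erase a).erase c, D b) ≤ r * s := by
    calc r * (8 * ∑ b ∈ ((univ : Finset (Fin r)).erase a).erase c, D b)
        = ∑ b ∈ ((univ : Finset (Fin r)).erase a).erase c, 8 * r * D b := by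
          rw [← mul_sum]; ring
      _ ≤ ∑ b ∈ ((univ : Finset (Fin r)).erase a).erase c, s := by
          refine sum_le_sum fun b hb' => ?_
          rw [mem_erase, mem_erase] at hb'
          exact hb b hb'.2.1 hb'.1
      _ = (((univ : Finset (Fin r)).erase a).erase c).card * s := by rw [sum_const, smul_eq_mul]
      _ ≤ r * s := by
          refine Nat.mul_le_mul_right _ ?_
          refine (card_le_card ((erase_subset _ _).trans (erase_subset _ _))).trans ?_
          rw [card_univ, Fintype.card_fin]
  have e4 := Nat.le_of_mul_le_mul_left e3 hr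
  omega

theorem EM2 (h : S_EM1) : S_EM2 := by
  classical
  intro r n S a c t u w Δ Γ hac ht hu hw hS hΔ h1 h2 h3 hΓ h4 h5 h6
  obtain ⟨p0, hp0⟩ := hS
  have key : ∀ i : ℕ, i ≤ t → ∃ (A : ℕ → Fin n) (B : ℕ → Fin u → Fin r → Fin n)
      (C : ℕ → Fin u → Fin w → Fin n),
      (∀ j, j < i → ∀ j', j' < i → A j = A j' → j = j') ∧
      (∀ b, b ≠ a → b ≠ c → ∀ j, j < i → ∀ j', j' < i → ∀ x x', B j x b = B j' x' b →
        j = j' ∧ x = x') ∧
      (∀ j, j < i → ∀ j', j' < i → ∀ x x' l l', C j x l = C j' x' l' →
        j = j' ∧ x = x' ∧ l = l') ∧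
      ∀ j, j < i → ∀ x l, ∃ p ∈ S, p a = A j ∧ p c = C j x l ∧
        ∀ b, b ≠ a → b ≠ c → p b = B j x b := by
    intro i
    induction i with
    | zero =>
      intro _
      refine ⟨fun _ => p0 a, fun _ _ _ => p0 a, fun _ _ _ => p0 a, ?_, ?_, ?_, ?_⟩
      · intro j hj; exact absurd hj (Nat.not_lt_zero _)
      · intro b _ _ j hj; exact absurd hj (Nat.not_lt_zero _)
      · intro j hj; exact absurd hj (Nat.not_lt_zero _)
      · intro j hj; exact absurd hj (Nat.not_lt_zero _)
    | succ i ih =>
      intro hi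
      obtain ⟨A, B, C, hA, hB, hC, hP⟩ := ih (by omega)
      set UA : Finset (Fin n) := (range i).image A with hUA
      set UB : Fin r → Finset (Fin n) := fun b =>
        ((range i) ×ˢ (univ : Finset (Fin u))).image (fun q => B q.1 q.2 b) with hUB
      set UC : Finset (Fin n) :=
        ((range i) ×ˢ (univ : Finset (Fin u × Fin w))).image (fun q => C q.1 q.2.1 q.2.2) with hUC
      set U : Fin r → Finset (Fin n) := fun b => if b = a then UA else if b = c then UC else UB b
        with hU
      have Ua : U a = UA := by rw [hU]; simp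
      have Uc : U c = UC := by rw [hU]; simp [hac.symm]
      have Ub : ∀ b, b ≠ a → b ≠ c → U b = UB b := by
        intro b hb1 hb2; rw [hU]; simp [hb1, hb2]
      have cA : UA.card ≤ t - 1 := by
        refine card_image_le.trans ?_
        rw [card_range]; omega
      have cB : ∀ b, (UB b).card ≤ t * u := by
        intro b
        refine card_image_le.trans ?_
        rw [card_product, card_range, card_univ, Fintype.card_fin]
        exact Nat.mul_le_mul_right _ (by omega)
      have cC : UC.card ≤ t * u * w := by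
        refine card_image_le.trans ?_
        rw [card_product, card_range, card_univ, Fintype.card_prod, Fintype.card_fin,
          Fintype.card_fin, mul_assoc t u w]
        exact Nat.mul_le_mul_right _ (by omega)
      set S' : Tp r n := S.filter (fun p => ∀ b, p b ∉ U b) with hS'
      have hsub : S ⊆ S' ∪ univ.biUnion (fun b => S.filter (fun p => p b ∈ U b)) := by
        intro p hp
        rw [mem_union]
        by_cases hq : ∀ b, p b ∉ U b
        · left
          rw [hS', mem_filter]
          exact ⟨hp, hq⟩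
        · right
          push Not at hq
          obtain ⟨b, hb⟩ := hq
          rw [mem_biUnion]
          exact ⟨b, mem_univ _, mem_filter.2 ⟨hp, hb⟩⟩
      have hcard : S.card ≤ S'.card + ∑ b, (S.filter (fun p => p b ∈ U b)).card := by
        refine (card_le_card hsub).trans ?_
        refine (card_union_le _ _).trans ?_
        exact Nat.add_le_add_left card_biUnion_le _
      have h58 : 5 * S.card ≤ 8 * S'.card := by
        have e0 : 8 * ∑ b, (S.filter (fun p => p b ∈ U b)).card ≤ 3 * S.card := by
          refine EM2_sum a c hac _ _ ?_ ?_ ?_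
          · rw [Ua]
            calc 8 * (S.filter (fun p => p a ∈ UA)).card ≤ 8 * ((t - 1) * Δ a) :=
                  Nat.mul_le_mul_left _ (EM2_del S a UA (Δ a) _ (hΔ a) cA)
              _ ≤ S.card := by rw [← mul_assoc]; exact h1
          · rw [Uc]
            calc 8 * (S.filter (fun p => p c ∈ UC)).card ≤ 8 * (t * u * w * Δ c) :=
                  Nat.mul_le_mul_left _ (EM2_del S c UC (Δ c) _ (hΔ c) cC)
              _ ≤ S.card := by rw [← mul_assoc]; exact h3
          · intro b hb1 hb2
            rw [Ub b hb1 hb2]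
            calc 8 * r * (S.filter (fun p => p b ∈ UB b)).card ≤ 8 * r * (t * u * Δ b) :=
                  Nat.mul_le_mul_left _ (EM2_del S b (UB b) (Δ b) _ (hΔ b) (cB b))
              _ ≤ S.card := by rw [← mul_assoc]; exact h2 b hb1 hb2
        omega
      obtain ⟨x, B', C', hB', hC', hP'⟩ := h r n S S' a c u w Γ hac hu hw ⟨p0, hp0⟩
        (filter_subset _ _) h58 hΓ h4 h5 h6
      have hmem : ∀ p ∈ S', p ∈ S ∧ ∀ b, p b ∉ U b := by
        intro p hp; rw [hS', mem_filter] at hp; exact hp
      have nx : x ∉ UA := by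
        obtain ⟨p, hp, e1, _, _⟩ := hP' ⟨0, hu⟩ ⟨0, hw⟩
        rw [← e1, ← Ua]; exact (hmem p hp).2 a
      have nB : ∀ b, b ≠ a → b ≠ c → ∀ j, B' j b ∉ UB b := by
        intro b hb1 hb2 j
        obtain ⟨p, hp, _, _, e1⟩ := hP' j ⟨0, hw⟩
        rw [← e1 b hb1 hb2, ← Ub b hb1 hb2]; exact (hmem p hp).2 b
      have nC : ∀ j l, C' j l ∉ UC := by
        intro j l
        obtain ⟨p, hp, _, e1, _⟩ := hP' j l
        rw [← e1, ← Uc]; exact (hmem p hp).2 c
      have mA : ∀ j, j < i → A j ∈ UA := fun j hj => mem_image_of_mem _ (mem_range.2 hj)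
      have mB : ∀ b, ∀ j, j < i → ∀ y, B j y b ∈ UB b := fun b j hj y =>
        mem_image.2 ⟨(j, y), mem_product.2 ⟨mem_range.2 hj, mem_univ _⟩, rfl⟩
      have mC : ∀ j, j < i → ∀ y l, C j y l ∈ UC := fun j hj y l =>
        mem_image.2 ⟨(j, (y, l)), mem_product.2 ⟨mem_range.2 hj, mem_univ _⟩, rfl⟩
      refine ⟨fun j => if j < i then A j else x, fun j => if j < i then B j else B',
        fun j => if j < i then C j else C', ?_, ?_, ?_, ?_⟩
      · intro j hj j' hj' e
        by_cases k1 : j < i <;> by_cases k2 : j' < i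
        · simp only [k1, k2, if_true] at e; exact hA j k1 j' k2 e
        · simp only [k1, k2, if_true, if_false] at e
          exact absurd (e ▸ mA j k1) nx
        · simp only [k1, k2, if_true, if_false] at e
          exact absurd (e ▸ mA j' k2) nx
        · omega
      · intro b hb1 hb2 j hj j' hj' y y' e
        by_cases k1 : j < i <;> by_cases k2 : j' < i
        · simp only [k1, k2, if_true] at e; exact hB b hb1 hb2 j k1 j' k2 y y' e
        · simp only [k1, k2, if_true, if_false] at e
          exact absurd (e ▸ mB b j k1 y) (nB b hb1 hb2 y')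
        · simp only [k1, k2, if_true, if_false] at e
          exact absurd (e ▸ mB b j' k2 y') (nB b hb1 hb2 y)
        · simp only [k1, k2, if_false] at e
          exact ⟨by omega, hB' b hb1 hb2 e⟩
      · intro j hj j' hj' y y' l l' e
        by_cases k1 : j < i <;> by_cases k2 : j' < i
        · simp only [k1, k2, if_true] at e; exact hC j k1 j' k2 y y' l l' e
        · simp only [k1, k2, if_true, if_false] at e
          exact absurd (e ▸ mC j k1 y l) (nC y' l')
        · simp only [k1, k2, if_true, if_false] at e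
          exact absurd (e ▸ mC j' k2 y' l') (nC y l)
        · simp only [k1, k2, if_false] at e
          have e2 : ((y, l) : Fin u × Fin w) = (y', l') := hC' e
          rw [Prod.mk.injEq] at e2
          exact ⟨by omega, e2⟩
      · intro j hj y l
        by_cases k1 : j < i
        · simp only [k1, if_true]; exact hP j k1 y l
        · simp only [k1, if_false]
          obtain ⟨p, hp, e⟩ := hP' y l
          exact ⟨p, (hmem p hp).1, e⟩
  obtain ⟨A, B, C, hA, hB, hC, hP⟩ := key t le_rfl
  refine ⟨fun i => A i, fun i j b => B i j b, fun i j l => C i j l, ?_, ?_, ?_, ?_⟩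
  · intro i j e
    exact Fin.ext (hA i i.2 j j.2 e)
  · rintro b hb1 hb2 ⟨i, x⟩ ⟨j, y⟩ e
    have := hB b hb1 hb2 i i.2 j j.2 x y e
    exact Prod.ext (Fin.ext this.1) this.2
  · rintro ⟨i, x, l⟩ ⟨j, y, l'⟩ e
    have := hC i i.2 j j.2 x y l l' e
    exact Prod.ext (Fin.ext this.1) (Prod.ext this.2.1 this.2.2)
  · intro i j l
    exact hP i i.2 j l

end H773X
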