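import Pool.Agent.H773R2.UK.Defs

/-! Task LC: complete `r`-graph against random `r`-graphs (helper692, after the start file). -/

set_option linter.unusedVariables false

namespace H773X

open Finset Pool.Agent.Results.MP_9dddc4_co.UkExponent

theorem LC_six {r : ℕ} (hr : 3 ≤ r) (m : ℕ) : 6 * m.choose r ≤ m ^ r := by
  have h1 : 6 ≤ r.factorial := Nat.factorial_le hr
  calc 6 * m.choose r ≤ r.factorial * m.choose r := Nat.mul_le_mul_right _ h1
    _ = m.descFactorial r := (Nat.descFactorial_eq_factorial_mul_choose m r).symm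
    _ ≤ m ^ r := Nat.descFactorial_le_pow m r

theorem LC_desc {m n : ℕ} (hmn : m ≤ n) (r : ℕ) :
    m.descFactorial r * n ^ r ≤ n.descFactorial r * m ^ r := by
  induction r with
  | zero => simp
  | succ r ih =>
    rw [Nat.descFactorial_succ, Nat.descFactorial_succ, pow_succ, pow_succ]
    have e1 : (m - r) * n ≤ (n - r) * m := by
      rw [Nat.sub_mul, Nat.sub_mul, mul_comm n m]
      exact Nat.sub_le_sub_left (Nat.mul_le_mul_left _ hmn) _
    calc (m - r) * m.descFactorial r * (n ^ r * n) = ((m - r) * n) * (m.descFactorial r * n ^ r) := by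
          ring
      _ ≤ ((n - r) * m) * (n.descFactorial r * m ^ r) := Nat.mul_le_mul e1 ih
      _ = (n - r) * n.descFactorial r * (m ^ r * m) := by ring

theorem LC_ratio {m n : ℕ} (hmn : m ≤ n) (r : ℕ) :
    m.choose r * n ^ r ≤ n.choose r * m ^ r := by
  have h1 := LC_desc hmn r
  rw [Nat.descFactorial_eq_factorial_mul_choose, Nat.descFactorial_eq_factorial_mul_choose,
    mul_assoc, mul_assoc] at h1
  exact Nat.le_of_mul_le_mul_left h1 (Nat.factorial_pos r)

theorem LC : S_LC := by
  intro r n m T l hr hmn hT h1 h2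
  classical
  by_cases hmr : m < r
  · rw [Nat.choose_eq_zero_of_lt hmr]
    exact Nat.zero_le _
  push Not at hmr
  set e := m.choose r with he
  have hepos : 0 < e := Nat.choose_pos hmr
  set Ω := Finset.powersetCard r (Finset.univ : Finset (Fin n)) with hΩ
  have hΩc : Ω.card = n.choose r := by rw [hΩ, Finset.card_powersetCard, Finset.card_fin]
  have heN : e ≤ Ω.card := by rw [hΩc]; exact Nat.choose_le_choose r hmn
  set ι : Fin m → Fin n := Fin.castLE hmn with hι
  have hιinj : Function.Injective ι := Fin.castLE_injective hmn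
  set K := Finset.powersetCard r (Finset.univ : Finset (Fin m)) with hK
  have hKc : K.card = e := by rw [hK, Finset.card_powersetCard, Finset.card_fin]
  set J' : Finset (Fin l → Finset (Finset (Fin n))) :=
    (Finset.powersetCard T K ×ˢ (Finset.univ : Finset (Fin l → Fin m → Fin n))).image
      (fun p i => img (p.2 i) p.1) with hJ'
  set J := J'.filter (fun D => ∀ i, D i ⊆ Ω ∧ (D i).card = T) with hJ
  have hJc : J.card ≤ e.choose T * (n ^ m) ^ l := by
    refine le_trans (Finset.card_le_card (Finset.filter_subset _ _)) ?_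
    refine le_trans Finset.card_image_le ?_
    rw [Finset.card_product, Finset.card_powersetCard, hKc, Finset.card_univ]
    simp
  have hlt : J.card * e ^ (T * l) < Ω.card ^ (T * l) := by
    rw [hΩc]
    refine lt_of_le_of_lt (Nat.mul_le_mul_right _ hJc) ?_
    have hNpos : 0 < n.choose r := Nat.choose_pos (le_trans hmr hmn)
    have hn0 : 0 < n := by omega
    -- real computation
    have key : (e.choose T : ℝ) * ((n : ℝ) ^ m) ^ l * (e : ℝ) ^ (T * l)
        < (n.choose r : ℝ) ^ (T * l) := by
      have hTr : (0 : ℝ) < T := by exact_mod_cast hT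
      have hnr : (0 : ℝ) < n := by exact_mod_cast hn0
      have hNr : (0 : ℝ) < n.choose r := by exact_mod_cast hNpos
      have hmr : (0 : ℝ) < m := by
        have : 0 < m := by omega
        exact_mod_cast this
      have c1 := choose_le_three e T
      have c2 : (e : ℝ) * n ^ r ≤ n.choose r * m ^ r := by
        exact_mod_cast LC_ratio hmn r
      have c3 : (6 : ℝ) * e ≤ m ^ r := by exact_mod_cast LC_six hr m
      have c4 : (m : ℝ) ^ (r * l + r) ≤ T * n ^ (r * l) := by exact_mod_cast h1
      have c5 : (n : ℝ) ^ (m * l) < 2 ^ T := by exact_mod_cast h2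
      have hfac : (0 : ℝ) < 2 ^ T * T ^ T * ((n : ℝ) ^ r) ^ (T * l) := by positivity
      rw [← mul_lt_mul_iff_left₀ hfac]
      calc (e.choose T : ℝ) * ((n : ℝ) ^ m) ^ l * (e : ℝ) ^ (T * l)
            * (2 ^ T * T ^ T * ((n : ℝ) ^ r) ^ (T * l))
          = 2 ^ T * (e.choose T * T ^ T) * ((n : ℝ) ^ (m * l)) * (e * n ^ r) ^ (T * l) := by
            rw [mul_pow (e : ℝ), pow_mul (n : ℝ) m l]; ring
        _ ≤ 2 ^ T * (3 * e) ^ T * ((n : ℝ) ^ (m * l)) * (n.choose r * m ^ r) ^ (T * l) := by
            gcongr
        _ = ((6 * e) * (m : ℝ) ^ (r * l)) ^ T * (n : ℝ) ^ (m * l) * (n.choose r) ^ (T * l) := by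
            have : (m : ℝ) ^ (r * l) = (m ^ r) ^ l := pow_mul _ _ _
            rw [this, mul_pow (6 * (e : ℝ)), mul_pow ((n.choose r : ℕ) : ℝ), ← pow_mul (_ ^ r) l T,
              mul_comm l T, show (6 : ℝ) * e = 2 * (3 * e) by ring, mul_pow 2 (3 * (e : ℝ))]
            ring
        _ ≤ (m ^ r * (m : ℝ) ^ (r * l)) ^ T * (n : ℝ) ^ (m * l) * (n.choose r) ^ (T * l) := by
            gcongr
        _ ≤ (T * n ^ (r * l)) ^ T * (n : ℝ) ^ (m * l) * (n.choose r) ^ (T * l) := by
            have : (m : ℝ) ^ r * m ^ (r * l) = m ^ (r * l + r) := by ring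
            rw [this]
            gcongr
        _ < (T * n ^ (r * l)) ^ T * 2 ^ T * (n.choose r) ^ (T * l) := by
            gcongr
        _ = (n.choose r : ℝ) ^ (T * l) * (2 ^ T * T ^ T * ((n : ℝ) ^ r) ^ (T * l)) := by
            have : (n : ℝ) ^ (r * l) = (n ^ r) ^ l := pow_mul _ _ _
            rw [this, mul_pow (T : ℝ), ← pow_mul (_ ^ r) l T, mul_comm l T]
            ring
    exact_mod_cast key
  obtain ⟨G, hG1, hG2⟩ := union_bound Ω e T l heN J
    (fun D hD => (Finset.mem_filter.1 hD).2) hlt
  have hG1' : ∀ i, IsRGraph r (G i) := fun i f hf =>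
    (Finset.mem_powersetCard.1 ((hG1 i).1 hf)).2
  have hH0 : IsRGraph r (img ι K) := by
    intro f hf
    obtain ⟨g, hg, rfl⟩ := Finset.mem_image.1 hf
    rw [Finset.card_image_of_injective _ hιinj]
    exact (Finset.mem_powersetCard.1 hg).2
  refine le_U_mul (Fin.cons (img ι K) G) ?_ e T (Nat.succ_pos l) ?_ ?_
  · intro i
    induction i using Fin.cases with
    | zero => exact hH0
    | succ i => exact hG1' i
  · intro i
    induction i using Fin.cases with
    | zero => simp only [Fin.cons_zero]; rw [img_card_inj hιinj, hKc]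
    | succ i => exact (hG1 i).2
  · intro s hs
    by_contra hcon
    push Not at hcon
    obtain ⟨F0, σ, hF0, hσ⟩ := hs
    obtain ⟨F1, hF1, hF1c⟩ := Finset.exists_subset_card_eq (show T ≤ F0.card by omega)
    have h0 : img (σ 0) F1 ⊆ img ι K := by
      have := hσ 0
      simp only [Fin.cons_zero] at this
      exact subset_trans (img_subset_img _ hF1) this
    -- pull back
    set F := K.filter (fun f => f.image ι ∈ img (σ 0) F1) with hF
    have hFimg : img ι F = img (σ 0) F1 := by
      ext f
      constructor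
      · intro hf
        obtain ⟨g, hg, rfl⟩ := Finset.mem_image.1 hf
        exact (Finset.mem_filter.1 hg).2
      · intro hf
        obtain ⟨g, hg, rfl⟩ := Finset.mem_image.1 (h0 hf)
        exact Finset.mem_image.2 ⟨g, Finset.mem_filter.2 ⟨hg, hf⟩, rfl⟩
    have hFc : F.card = T := by
      rw [← img_card_inj hιinj, hFimg, img_card_inj (σ 0).injective, hF1c]
    have hD : ∀ i : Fin l, img (fun x => σ i.succ ((σ 0).symm (ι x))) F = img (σ i.succ) F1 := by
      intro i
      have e1 : (fun x => σ i.succ ((σ 0).symm (ι x)))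
          = (fun y => σ i.succ ((σ 0).symm y)) ∘ ι := rfl
      rw [e1, ← img_img, hFimg, img_img]
      congr 1
      funext x
      simp
    have hmem : (fun i : Fin l => img (σ i.succ) F1) ∈ J := by
      rw [hJ, Finset.mem_filter]
      constructor
      · rw [hJ']
        refine Finset.mem_image.2 ⟨(F, fun i x => σ i.succ ((σ 0).symm (ι x))), ?_, ?_⟩
        · rw [Finset.mem_product]
          refine ⟨Finset.mem_powersetCard.2 ⟨Finset.filter_subset _ _, hFc⟩, Finset.mem_univ _⟩
        · funext i
          exact hD i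
      · intro i
        constructor
        · have h3 : img (σ i.succ) F1 ⊆ G i := by
            have := hσ i.succ
            simp only [Fin.cons_succ] at this
            exact subset_trans (img_subset_img _ hF1) this
          exact subset_trans h3 (hG1 i).1
        · rw [img_card_inj (σ _).injective, hF1c]
    obtain ⟨i, hi⟩ := hG2 _ hmem
    apply hi
    have := hσ i.succ
    simp only [Fin.cons_succ] at this
    exact subset_trans (img_subset_img _ hF1) this

end H773X
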