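import Pool.Agent.H773R2.UK.Defs

namespace H773X

open Finset Pool.Agent.Results.MP_9dddc4_co.UkExponent

theorem LOB_choose {r m : ℕ} (hm : 2 * r ≤ m) : m ^ r ≤ 2 ^ r * r.factorial * m.choose r := by
  have h1 := Nat.pow_sub_le_descFactorial m r
  have h2 : m ≤ 2 * (m + 1 - r) := by omega
  calc m ^ r ≤ (2 * (m + 1 - r)) ^ r := Nat.pow_le_pow_left h2 r
    _ = 2 ^ r * (m + 1 - r) ^ r := by rw [mul_pow]
    _ ≤ 2 ^ r * m.descFactorial r := Nat.mul_le_mul_left _ h1
    _ = 2 ^ r * r.factorial * m.choose r := by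
      rw [Nat.descFactorial_eq_factorial_mul_choose, mul_assoc]

theorem LOB (h : S_LC) : S_LOB := by
  intro r k hr hk
  obtain ⟨l, rfl⟩ : ∃ l, k = l + 1 := ⟨k - 1, by omega⟩
  have hl : 1 ≤ l := by omega
  have hlr : (1 : ℝ) ≤ l := by exact_mod_cast hl
  have hrr : (3 : ℝ) ≤ r := by exact_mod_cast hr
  have hd0 : (0 : ℝ) < r * l + r - 1 := by nlinarith
  have hbt : bt r (l + 1) = (r : ℝ) * (r - 1) * l / (r * l + r - 1) := by
    unfold bt
    push_cast
    congr 1 <;> ring
  have hden : (r : ℝ) * ((l + 1 : ℕ) : ℝ) - 1 = r * l + r - 1 := by push_cast; ring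
  rw [hbt, hden]
  set W : ℝ := 2 ^ (r - 1) * (2 ^ r * r.factorial) * 3 * l with hW
  have hW0 : 0 < W := by positivity
  refine ⟨1 / W, by positivity, ?_⟩
  -- y tends to infinity
  have hev : ∀ᶠ n : ℕ in Filter.atTop, (4 * r : ℝ) ≤ (n : ℝ) ^ (1 / ((r : ℝ) * l + r - 1)) :=
    ((tendsto_rpow_atTop (by positivity)).comp tendsto_natCast_atTop_atTop).eventually_ge_atTop _
  filter_upwards [hev, Filter.eventually_ge_atTop 3] with n h8 hn3
  obtain ⟨g1, g2, g3⟩ := log_facts hn3
  have hn0 : (0 : ℝ) < n := by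
    have : 0 < n := by omega
    exact_mod_cast this
  have hn1 : (1 : ℝ) ≤ n := by
    have : 1 ≤ n := by omega
    exact_mod_cast this
  have hlogle : Real.log n ≤ n := by
    have := Real.log_le_sub_one_of_pos hn0
    linarith
  set L := Nat.log 2 n with hL
  set y : ℝ := ((n : ℝ) ^ (r * l) * Real.log n) ^ (1 / ((r : ℝ) * l + r - 1)) with hy
  have hinner : (0 : ℝ) ≤ (n : ℝ) ^ (r * l) * Real.log n := by positivity
  have hexp : ((r * l + r - 1 : ℕ) : ℝ) = (r : ℝ) * l + r - 1 := by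
    rw [Nat.cast_sub (by omega)]
    push_cast
    ring
  have hypow : y ^ (r * l + r - 1) = (n : ℝ) ^ (r * l) * Real.log n := by
    rw [hy, ← Real.rpow_natCast, ← Real.rpow_mul hinner, hexp, one_div, inv_mul_cancel₀ hd0.ne',
      Real.rpow_one]
  have hy8 : 4 * (r : ℝ) ≤ y := by
    refine le_trans h8 ?_
    rw [hy]
    apply Real.rpow_le_rpow hn0.le _ (by positivity)
    calc (n : ℝ) = n ^ 1 * 1 := by ring
      _ ≤ (n : ℝ) ^ (r * l) * Real.log n := by
          have e0 : 1 ≤ r * l := Nat.mul_pos (by omega) hl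
          have e1 : (n : ℝ) ^ 1 ≤ (n : ℝ) ^ (r * l) := pow_le_pow_right₀ hn1 e0
          gcongr
  have hy0 : 0 < y := by linarith
  set m := ⌊y⌋₊ with hm
  have hmy : (m : ℝ) ≤ y := Nat.floor_le hy0.le
  have hmy2 : y / 2 ≤ m := by
    have h1 := Nat.lt_floor_add_one y
    rw [← hm] at h1
    linarith
  have hm4 : 2 * r ≤ m := by
    have : (2 * r : ℝ) ≤ m := by linarith
    exact_mod_cast this
  have hmn : m ≤ n := by
    by_contra hcon
    push Not at hcon
    have hlt : (n : ℝ) < y := lt_of_lt_of_le (by exact_mod_cast hcon) hmy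
    have h1 : (n : ℝ) ^ (r * l + r - 1) < y ^ (r * l + r - 1) :=
      pow_lt_pow_left₀ hlt hn0.le (by omega)
    rw [hypow] at h1
    have h2 : (n : ℝ) ^ (r * l) * Real.log n ≤ (n : ℝ) ^ (r * l) * n := by gcongr
    have h3 : (n : ℝ) ^ (r * l) * n ≤ (n : ℝ) ^ (r * l + r - 1) := by
      rw [← pow_succ]
      exact pow_le_pow_right₀ hn1 (by omega)
    linarith
  have hmpos : 0 < m := by omega
  have hlpos : 0 < l := hl
  have hmain := h r n m (m * l * (L + 1)) l hr hmn (by positivity) (by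
      have h1 : (m : ℝ) ^ (r * l + r - 1) ≤ (n : ℝ) ^ (r * l) * (L + 1) := by
        calc (m : ℝ) ^ (r * l + r - 1) ≤ y ^ (r * l + r - 1) := by gcongr
          _ = (n : ℝ) ^ (r * l) * Real.log n := hypow
          _ ≤ _ := by gcongr
      have h1' : m ^ (r * l + r - 1) ≤ n ^ (r * l) * (L + 1) := by exact_mod_cast h1
      have hexp2 : r * l + r = (r * l + r - 1) + 1 := by omega
      calc m ^ (r * l + r) = m * m ^ (r * l + r - 1) := by
            rw [← pow_succ', ← hexp2]
        _ ≤ m * (n ^ (r * l) * (L + 1)) := Nat.mul_le_mul_left _ h1'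
        _ ≤ l * (m * (n ^ (r * l) * (L + 1))) := Nat.le_mul_of_pos_left _ (by omega)
        _ = m * l * (L + 1) * n ^ (r * l) := by ring) (by
      have h1 : n < 2 ^ (L + 1) := Nat.lt_pow_succ_log_self (by norm_num) n
      have h2 : m * l ≠ 0 := by positivity
      calc n ^ (m * l) < (2 ^ (L + 1)) ^ (m * l) := Nat.pow_lt_pow_left h1 h2
        _ = 2 ^ (m * l * (L + 1)) := by rw [← pow_mul]; congr 1; ring)
  have h16 := LOB_choose hm4
  have hfin : (m : ℝ) ^ r ≤ 2 ^ r * r.factorial * (U (l + 1) n r * (m * l * (L + 1))) := by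
    have : m ^ r ≤ 2 ^ r * r.factorial * (U (l + 1) n r * (m * l * (L + 1))) :=
      le_trans h16 (Nat.mul_le_mul_left _ hmain)
    exact_mod_cast this
  have hm0 : (0 : ℝ) < m := by
    have : 0 < m := by omega
    exact_mod_cast this
  have hfin2 : (m : ℝ) ^ (r - 1) ≤ 2 ^ r * r.factorial * 3 * l * Real.log n * U (l + 1) n r := by
    have h1 : (m : ℝ) * m ^ (r - 1) ≤
        m * (2 ^ r * r.factorial * (U (l + 1) n r * (l * (L + 1)))) := by
      calc (m : ℝ) * m ^ (r - 1) = m ^ r := by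
            rw [← pow_succ']
            congr 1
            omega
        _ ≤ _ := hfin
        _ = _ := by ring
    have h2 := le_of_mul_le_mul_left h1 hm0
    calc (m : ℝ) ^ (r - 1) ≤ _ := h2
      _ = 2 ^ r * r.factorial * (U (l + 1) n r * l) * (L + 1) := by ring
      _ ≤ 2 ^ r * r.factorial * (U (l + 1) n r * l) * (3 * Real.log n) := by gcongr
      _ = _ := by ring
  have hy2 : y ^ (r - 1) ≤ W * Real.log n * U (l + 1) n r := by
    have h3 : (y / 2) ^ (r - 1) ≤ (m : ℝ) ^ (r - 1) := by gcongr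
    have h4 : y ^ (r - 1) = 2 ^ (r - 1) * (y / 2) ^ (r - 1) := by
      rw [← mul_pow]
      congr 1
      ring
    rw [h4, hW]
    calc 2 ^ (r - 1) * (y / 2) ^ (r - 1) ≤ 2 ^ (r - 1) *
          (2 ^ r * r.factorial * 3 * l * Real.log n * U (l + 1) n r) := by
          gcongr
          exact h3.trans hfin2
      _ = _ := by ring
  have hr1 : ((r - 1 : ℕ) : ℝ) = (r : ℝ) - 1 := by
    rw [Nat.cast_sub (by omega)]
    norm_num
  have hy2' : y ^ (r - 1) = (n : ℝ) ^ ((r : ℝ) * (r - 1) * l / (r * l + r - 1)) *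
      (Real.log n) ^ (((r : ℝ) - 1) / (r * l + r - 1)) := by
    rw [hy, ← Real.rpow_natCast, ← Real.rpow_mul hinner, Real.mul_rpow (by positivity)
      (by positivity), ← Real.rpow_natCast (n : ℝ), ← Real.rpow_mul hn0.le, hr1]
    congr 2
    · push_cast
      field_simp
    · field_simp
  have hlog0 : (0 : ℝ) < Real.log n := by linarith
  have hsplit : (Real.log n) = (Real.log n) ^ (1 - ((r : ℝ) - 1) / (r * l + r - 1))
      * (Real.log n) ^ (((r : ℝ) - 1) / (r * l + r - 1)) := by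
    rw [← Real.rpow_add hlog0]
    simp
  rw [hy2'] at hy2
  set P := (Real.log n) ^ (((r : ℝ) - 1) / (r * l + r - 1)) with hP
  set Q := (Real.log n) ^ (1 - ((r : ℝ) - 1) / (r * l + r - 1)) with hQ
  have hP0 : 0 < P := by positivity
  have hQ0 : 0 < Q := by positivity
  rw [hsplit] at hy2
  have h5 : (n : ℝ) ^ ((r : ℝ) * (r - 1) * l / (r * l + r - 1)) * P ≤
      (W * Q * U (l + 1) n r) * P := by
    calc _ ≤ _ := hy2
      _ = _ := by ring
  have h6 := le_of_mul_le_mul_right h5 hP0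
  rw [div_le_iff₀ hQ0, div_mul_eq_mul_div, one_mul, div_le_iff₀ (by positivity)]
  calc _ ≤ _ := h6
    _ = _ := by ring

end H773X
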