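import Pool.Agent.H773R2.UK.Defs

set_option autoImplicit false

namespace H773X

theorem LOG_BB {r n : ℕ} (hn : 2 ≤ n) : (BB r n : ℝ) ≤ (2 * r + 2) * Real.log n := by
  have h2 : (0.6931471803 : ℝ) < Real.log 2 := Real.log_two_gt_d9
  have hn' : (2 : ℝ) ≤ n := by exact_mod_cast hn
  have hlog : Real.log 2 ≤ Real.log n := Real.log_le_log (by norm_num) hn'
  have h1 : ((2 : ℕ) : ℝ) ^ (Nat.log 2 (n ^ r)) ≤ (n : ℝ) ^ r := by
    have := Nat.pow_log_le_self 2 (x := n ^ r) (by positivity)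
    exact_mod_cast this
  have h3 : (Nat.log 2 (n ^ r) : ℝ) * Real.log 2 ≤ r * Real.log n := by
    have h4 := Real.log_le_log (by positivity) h1
    rw [Real.log_pow, Real.log_pow] at h4
    push_cast at h4
    exact h4
  have h5 : (0 : ℝ) ≤ Nat.log 2 (n ^ r) := Nat.cast_nonneg _
  have h6 : (Nat.log 2 (n ^ r) : ℝ) * 0.69 ≤ r * Real.log n := by nlinarith
  have h7 : (0 : ℝ) ≤ (r : ℝ) * Real.log n := mul_nonneg (Nat.cast_nonneg _) (by linarith)
  unfold BB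
  push_cast
  nlinarith

theorem LOG : S_LOG := by
  intro r hr
  refine ⟨4 * (2 * (r:ℝ) ^ r * (32 * (r:ℝ)) ^ r) * ((2 * (r:ℝ) + 2) ^ ((r + r ^ 2) * (r + 2))) * (r + 2),
    (r + r ^ 2) * (r + 2) + 1, by positivity, ?_⟩
  intro n hn
  have h2 : (0.6931471803 : ℝ) < Real.log 2 := Real.log_two_gt_d9
  have hn' : (2 : ℝ) ≤ n := by exact_mod_cast hn
  have hlog : Real.log 2 ≤ Real.log n := Real.log_le_log (by norm_num) hn'
  have hl0 : 0 ≤ Real.log n := by linarith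
  have h1 := LOG_BB (r := r) hn
  have hr0 : (0 : ℝ) ≤ r := Nat.cast_nonneg r
  have h3 : (Lam r n : ℝ) ^ (r + 2) ≤ ((2 * r + 2) * Real.log n) ^ ((r + r ^ 2) * (r + 2)) := by
    unfold Lam
    push_cast
    rw [← pow_mul]
    exact pow_le_pow_left₀ (Nat.cast_nonneg _) h1 _
  have h4 : 1 + (r:ℝ) * Real.log n ≤ (r + 2) * Real.log n := by nlinarith
  have h5 : (ZZ r n : ℝ) = (2 * (r:ℝ) ^ r * (32 * (r:ℝ)) ^ r) * (Lam r n : ℝ) ^ (r + 2) := by
    unfold ZZ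
    push_cast
    rw [mul_pow (32 * (r:ℝ)), pow_add]
    ring
  rw [h5]
  calc 4 * (2 * (r:ℝ) ^ r * (32 * (r:ℝ)) ^ r * (Lam r n : ℝ) ^ (r + 2)) * (1 + r * Real.log n)
      = (4 * (2 * (r:ℝ) ^ r * (32 * (r:ℝ)) ^ r)) * ((Lam r n : ℝ) ^ (r + 2) *
          (1 + r * Real.log n)) := by ring
    _ ≤ (4 * (2 * (r:ℝ) ^ r * (32 * (r:ℝ)) ^ r)) *
          (((2 * r + 2) * Real.log n) ^ ((r + r ^ 2) * (r + 2)) * ((r + 2) * Real.log n)) := by
        refine mul_le_mul_of_nonneg_left (mul_le_mul h3 h4 (by positivity) (by positivity))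
          (by positivity)
    _ = _ := by rw [mul_pow (2 * (r:ℝ) + 2), pow_succ (Real.log n)]; ring

end H773X
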