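import Pool.Agent.H773R2.UK.Defs

/-! LP: choice of the roles (pure arithmetic). -/

set_option linter.unusedVariables false

namespace H773X

open Finset

/-- cancellation used in all the cases -/
theorem LP_A {N E L G t u M K : ℕ} (hN : 1 ≤ N) (hL : 1 ≤ L) (hG : 3 ≤ G) (ht : 1 ≤ t)
    (hu : 1 ≤ u) (hK : 1 ≤ K) (h : E ≤ 2 * L * G * u * M * K)
    (c2 : 2 * L * G ^ 2 * (t * u) ^ 2 * (N * K) ≤ E) : G * (t * u) * N ≤ M := by
  have h1 : (2 * L * G * u * K) * (G * t ^ 2 * u * N) ≤ (2 * L * G * u * K) * M := by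
    calc (2 * L * G * u * K) * (G * t ^ 2 * u * N) = 2 * L * G ^ 2 * (t * u) ^ 2 * (N * K) := by
          ring
      _ ≤ E := c2
      _ ≤ 2 * L * G * u * M * K := h
      _ = (2 * L * G * u * K) * M := by ring
  have h2 : G * t ^ 2 * u * N ≤ M := Nat.le_of_mul_le_mul_left h1 (by positivity)
  refine le_trans ?_ h2
  have h3 : t ≤ t ^ 2 := by nlinarith
  calc G * (t * u) * N = t * (G * u * N) := by ring
    _ ≤ t ^ 2 * (G * u * N) := Nat.mul_le_mul_right _ h3
    _ = G * t ^ 2 * u * N := by ring

theorem LP : S_LP := by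
  classical
  intro r N E L G t u ν m hr hL hG ht hu hE hν hsym hm h2 hprod h4 hcs hEν c1 c2 c3
  haveI : NeZero r := ⟨by omega⟩
  haveI : Nonempty (Fin r) := ⟨0⟩
  have hN : 1 ≤ N := (hν 0).1.trans (hν 0).2
  have hνN : ∀ a, ν a ≤ N := fun a => (hν a).2
  -- exponents
  obtain ⟨k, rfl⟩ : ∃ k, r = k + 3 := ⟨r - 3, by omega⟩
  have e1 : k + 3 - 1 = k + 2 := by omega
  have e2 : k + 3 - 2 = k + 1 := by omega
  have e3 : k + 3 - 3 = k := by omega
  rw [e1] at c1 ⊢
  rw [e2] at c2
  simp only [e2] at h2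
  simp only [e3] at hcs
  have hNk : 1 ≤ N ^ k := Nat.one_le_pow _ _ hN
  have c2' : 2 * L * G ^ 2 * (t * u) ^ 2 * (N * N ^ k) ≤ E := by
    have : N * N ^ k = N ^ (k + 1) := by ring
    rw [this]
    exact c2
  -- for every vertex there is another one
  have hother : ∀ a : Fin (k + 3), ∃ b, b ≠ a := fun a => exists_ne a
  have F1 : ∀ a, G * (t - 1) ≤ ν a := by
    intro a
    obtain ⟨b, hb⟩ := hother a
    have h5 : (G * (t - 1)) * N ^ (k + 2) ≤ ν a * N ^ (k + 2) := by
      calc (G * (t - 1)) * N ^ (k + 2) ≤ E := c1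
        _ ≤ m a b * N ^ (k + 1) := h2 a b hb.symm
        _ ≤ (ν a * ν b) * N ^ (k + 1) := Nat.mul_le_mul_right _ (hm a b).2
        _ ≤ (ν a * N) * N ^ (k + 1) :=
          Nat.mul_le_mul_right _ (Nat.mul_le_mul_left _ (hνN b))
        _ = ν a * N ^ (k + 2) := by ring
    exact Nat.le_of_mul_le_mul_right h5 (by positivity)
  have F2 : 2 * (t - 1) * N ^ (k + 2) < E := by
    rcases Nat.eq_zero_or_pos (t - 1) with h0 | h0
    · rw [h0, mul_zero, zero_mul]
      exact hE
    · have h5 : 0 < (t - 1) * N ^ (k + 2) := by positivity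
      calc 2 * (t - 1) * N ^ (k + 2) = 2 * ((t - 1) * N ^ (k + 2)) := by ring
        _ < 3 * ((t - 1) * N ^ (k + 2)) := by omega
        _ ≤ G * ((t - 1) * N ^ (k + 2)) := Nat.mul_le_mul_right _ hG
        _ = G * (t - 1) * N ^ (k + 2) := by ring
        _ ≤ E := c1
  obtain ⟨a0, -, ha0⟩ := exists_min_image (univ : Finset (Fin (k + 3))) ν univ_nonempty
  have hmin : ∀ b, ν a0 ≤ ν b := fun b => ha0 b (mem_univ _)
  have F3 : ∀ b, b ≠ a0 → G * (t * u) ≤ ν b := by
    intro b hb
    have h5 : (G * (t * u)) ^ 2 * N ^ (k + 1) ≤ ν b ^ 2 * N ^ (k + 1) := by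
      calc (G * (t * u)) ^ 2 * N ^ (k + 1) = 1 * (G ^ 2 * (t * u) ^ 2 * N ^ (k + 1)) := by ring
        _ ≤ (2 * L) * (G ^ 2 * (t * u) ^ 2 * N ^ (k + 1)) :=
          Nat.mul_le_mul_right _ (by omega)
        _ = 2 * L * G ^ 2 * (t * u) ^ 2 * N ^ (k + 1) := by ring
        _ ≤ E := c2
        _ ≤ m a0 b * N ^ (k + 1) := h2 a0 b hb.symm
        _ ≤ (ν a0 * ν b) * N ^ (k + 1) := Nat.mul_le_mul_right _ (hm a0 b).2
        _ ≤ (ν b * ν b) * N ^ (k + 1) :=
          Nat.mul_le_mul_right _ (Nat.mul_le_mul_right _ (hmin b))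
        _ = ν b ^ 2 * N ^ (k + 1) := by ring
    have h6 : (G * (t * u)) ^ 2 ≤ ν b ^ 2 := Nat.le_of_mul_le_mul_right h5 (by positivity)
    exact (Nat.pow_le_pow_iff_left (by norm_num)).1 h6
  have hFP : G * (t * u) ≤ G * (t * u * t) := Nat.mul_le_mul_left _ (Nat.le_mul_of_pos_right _ ht)
  by_cases hcase : ∃ b0, b0 ≠ a0 ∧ m a0 b0 < G * u * ν a0
  · -- case 1
    obtain ⟨b0, hb0, hlt⟩ := hcase
    have hbig : G * (t * u * t) ≤ ν a0 := by
      have h5 : (G * u * N ^ (k + 1)) * (2 * L * G * (t ^ 2 * u)) <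
          (G * u * N ^ (k + 1)) * ν a0 := by
        calc (G * u * N ^ (k + 1)) * (2 * L * G * (t ^ 2 * u)) =
            2 * L * G ^ 2 * (t * u) ^ 2 * N ^ (k + 1) := by ring
          _ ≤ E := c2
          _ ≤ m a0 b0 * N ^ (k + 1) := h2 a0 b0 hb0.symm
          _ < (G * u * ν a0) * N ^ (k + 1) := Nat.mul_lt_mul_of_pos_right hlt (by positivity)
          _ = (G * u * N ^ (k + 1)) * ν a0 := by ring
      have h6 : 2 * L * G * (t ^ 2 * u) < ν a0 := lt_of_mul_lt_mul_left h5 (Nat.zero_le _)
      refine le_trans ?_ h6.le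
      calc G * (t * u * t) = 1 * (G * (t ^ 2 * u)) := by ring
        _ ≤ (2 * L) * (G * (t ^ 2 * u)) := Nat.mul_le_mul_right _ (by omega)
        _ = 2 * L * G * (t ^ 2 * u) := by ring
    obtain ⟨a', ha'⟩ : ∃ a' : Fin (k + 3), a' ≠ a0 ∧ a' ≠ b0 := by
      by_contra hcon
      push Not at hcon
      have h5 : (univ : Finset (Fin (k + 3))) ⊆ {a0, b0} := by
        intro x _
        rw [mem_insert, mem_singleton]
        by_cases hx : x = a0
        · exact Or.inl hx
        · exact Or.inr (hcon x hx)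
      have h6 := (card_le_card h5).trans card_le_two
      rw [card_univ, Fintype.card_fin] at h6
      omega
    have hmain : ∀ b, b ≠ a' → G * (t * u) * N ≤ m a' b := by
      intro b hb
      refine LP_A (K := N ^ k) hN hL hG ht hu hNk ?_ c2'
      by_cases hba : b = a0
      · subst hba
        have h5 := hcs b b0 a' hb0.symm ha'.1.symm ha'.2.symm
        have h6 : E * ν b ≤ (2 * L * G * u * m a' b * N ^ k) * ν b := by
          calc E * ν b ≤ 2 * L * m b b0 * m b a' * N ^ k := h5
            _ = m b b0 * (2 * L * m b a' * N ^ k) := by ring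
            _ ≤ (G * u * ν b) * (2 * L * m b a' * N ^ k) := Nat.mul_le_mul_right _ hlt.le
            _ = (2 * L * G * u * m a' b * N ^ k) * ν b := by rw [hsym b a']; ring
        exact Nat.le_of_mul_le_mul_right h6 (hν b).1
      · by_cases hbb : b = b0
        · subst hbb
          have h5 := hcs b a0 a' hb0 ha'.2.symm ha'.1.symm
          have h6 : E * ν b ≤ (2 * L * G * u * m a' b * N ^ k) * ν b := by
            calc E * ν b ≤ 2 * L * m b a0 * m b a' * N ^ k := h5
              _ = m a0 b * (2 * L * m b a' * N ^ k) := by rw [hsym b a0]; ring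
              _ ≤ (G * u * ν b) * (2 * L * m b a' * N ^ k) :=
                Nat.mul_le_mul_right _ (hlt.le.trans (Nat.mul_le_mul_left _ (hmin b)))
              _ = (2 * L * G * u * m a' b * N ^ k) * ν b := by rw [hsym b a']; ring
          exact Nat.le_of_mul_le_mul_right h6 (hν b).1
        · have h5 := h4 a0 b0 a' b hb0.symm ha'.1.symm (Ne.symm hba) ha'.2.symm (Ne.symm hbb)
            hb.symm
          have hk1 : 1 ≤ k := by
            by_contra hcon
            have hk0 : k = 0 := by omega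
            subst hk0
            have h6 : ({a0, b0, a', b} : Finset (Fin 3)).card = 4 := by
              rw [card_insert_of_notMem, card_insert_of_notMem, card_insert_of_notMem,
                card_singleton]
              · rw [mem_singleton]; exact hb.symm
              · rw [mem_insert, mem_singleton, not_or]; exact ⟨ha'.2.symm, Ne.symm hbb⟩
              · rw [mem_insert, mem_insert, mem_singleton, not_or, not_or]
                exact ⟨hb0.symm, ha'.1.symm, Ne.symm hba⟩
            have h7 := card_le_univ ({a0, b0, a', b} : Finset (Fin 3))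
            rw [h6, Fintype.card_fin] at h7
            omega
          obtain ⟨j, rfl⟩ : ∃ j, k = j + 1 := ⟨k - 1, by omega⟩
          have e4 : j + 1 + 3 - 4 = j := by omega
          rw [e4] at h5
          calc E ≤ m a0 b0 * m a' b * N ^ j := h5
            _ ≤ (G * u * ν a0) * m a' b * N ^ j :=
              Nat.mul_le_mul_right _ (Nat.mul_le_mul_right _ hlt.le)
            _ ≤ (G * u * N) * m a' b * N ^ j :=
              Nat.mul_le_mul_right _ (Nat.mul_le_mul_right _ (Nat.mul_le_mul_left _ (hνN a0)))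
            _ = 1 * (G * u * m a' b * N ^ (j + 1)) := by ring
            _ ≤ (2 * L) * (G * u * m a' b * N ^ (j + 1)) := Nat.mul_le_mul_right _ (by omega)
            _ = 2 * L * G * u * m a' b * N ^ (j + 1) := by ring
    refine ⟨a', a0, ha'.1, F1 a', ?_, hbig, ?_, ?_, F2⟩
    · intro b _ _
      exact hFP.trans (hbig.trans (hmin b))
    · intro b hb _
      refine le_trans ?_ (hmain b hb)
      calc G * u * ν a' ≤ G * u * N := Nat.mul_le_mul_left _ (hνN a')
        _ = 1 * (G * u * N) := by ring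
        _ ≤ t * (G * u * N) := Nat.mul_le_mul_right _ ht
        _ = G * (t * u) * N := by ring
    · refine le_trans ?_ (hmain a0 ha'.1.symm)
      calc G * (u * t) * ν a' ≤ G * (u * t) * N := Nat.mul_le_mul_left _ (hνN a')
        _ = G * (t * u) * N := by ring
  · -- case 2
    push Not at hcase
    obtain ⟨c, hc, hcmax⟩ := exists_max_image ((univ : Finset (Fin (k + 3))).erase a0) ν (by
      obtain ⟨b, hb⟩ := hother a0
      exact ⟨b, mem_erase.2 ⟨hb, mem_univ _⟩⟩)
    have hca : c ≠ a0 := (mem_erase.1 hc).1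
    have hmax : ∀ b, ν b ≤ ν c := by
      intro b
      by_cases hb : b = a0
      · rw [hb]; exact hmin c
      · exact hcmax b (mem_erase.2 ⟨hb, mem_univ _⟩)
    have hcF : G * (t * u * t) ≤ ν c := by
      have h5 : (G * (t * u * t)) ^ (k + 3) ≤ ν c ^ (k + 3) := by
        refine c3.trans (hEν.trans ?_)
        refine (prod_le_pow_card univ ν (ν c) fun b _ => hmax b).trans ?_
        rw [card_univ, Fintype.card_fin]
      exact (Nat.pow_le_pow_iff_left (by omega)).1 h5
    by_cases h2a : G * (u * t) * ν a0 ≤ m a0 c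
    · exact ⟨a0, c, hca.symm, F1 a0, fun b hb _ => F3 b hb, hcF,
        fun b hb _ => hcase b hb, h2a, F2⟩
    · rw [not_le] at h2a
      have hmb : ∀ b, b ≠ a0 → b ≠ c → G * (t * u) * N ≤ m a0 b := by
        intro b hb hbc
        have h5 := hcs a0 b c hb.symm hca.symm hbc
        have h6 : E * ν a0 ≤ (2 * L * (G * (u * t)) * m a0 b * N ^ k) * ν a0 := by
          calc E * ν a0 ≤ 2 * L * m a0 b * m a0 c * N ^ k := h5
            _ = m a0 c * (2 * L * m a0 b * N ^ k) := by ring
            _ ≤ (G * (u * t) * ν a0) * (2 * L * m a0 b * N ^ k) :=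
              Nat.mul_le_mul_right _ h2a.le
            _ = (2 * L * (G * (u * t)) * m a0 b * N ^ k) * ν a0 := by ring
        have h7 : E ≤ 2 * L * (G * (u * t)) * m a0 b * N ^ k :=
          Nat.le_of_mul_le_mul_right h6 (hν a0).1
        have h8 : (2 * L * G * (u * t) * N ^ k) * (G * (t * u) * N) ≤
            (2 * L * G * (u * t) * N ^ k) * m a0 b := by
          calc (2 * L * G * (u * t) * N ^ k) * (G * (t * u) * N) =
              2 * L * G ^ 2 * (t * u) ^ 2 * (N * N ^ k) := by ring
            _ ≤ E := c2'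
            _ ≤ 2 * L * (G * (u * t)) * m a0 b * N ^ k := h7
            _ = (2 * L * G * (u * t) * N ^ k) * m a0 b := by ring
        exact Nat.le_of_mul_le_mul_left h8 (by positivity)
      obtain ⟨c', hc', hc'max⟩ := exists_max_image
        ((univ : Finset (Fin (k + 3))).filter (fun b => b ≠ a0 ∧ b ≠ c)) ν (by
          by_contra hcon
          rw [not_nonempty_iff_eq_empty, filter_eq_empty_iff] at hcon
          have h5 : (univ : Finset (Fin (k + 3))) ⊆ {a0, c} := by
            intro x _
            rw [mem_insert, mem_singleton]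
            by_contra hx
            rw [not_or] at hx
            exact hcon (mem_univ x) hx
          have h6 := (card_le_card h5).trans card_le_two
          rw [card_univ, Fintype.card_fin] at h6
          omega)
      rw [mem_filter] at hc'
      have hcard : ((univ : Finset (Fin (k + 3))).filter (fun b => b ≠ a0 ∧ b ≠ c)).card =
          k + 1 := by
        have h5 : (univ : Finset (Fin (k + 3))).filter (fun b => b ≠ a0 ∧ b ≠ c) =
            (univ.erase a0).erase c := by
          ext x
          simp only [mem_filter, mem_univ, true_and, mem_erase, and_true]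
          tauto
        rw [h5, card_erase_of_mem (mem_erase.2 ⟨hca, mem_univ _⟩), card_erase_of_mem (mem_univ _),
          card_univ, Fintype.card_fin]
        omega
      have hprod2 : ∏ b ∈ univ.filter (fun b => b ≠ a0 ∧ b ≠ c), ν b ≤ ν c' ^ (k + 1) := by
        rw [← hcard]
        exact prod_le_pow_card _ _ _ fun b hb => hc'max b hb
      have hprodpos : 0 < ∏ b ∈ univ.filter (fun b => b ≠ a0 ∧ b ≠ c), ν b :=
        prod_pos fun b _ => (hν b).1
      have hc'F : G * (t * u * t) ≤ ν c' := by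
        have h5 : (G * (t * u)) * (G * (t * u * t)) ^ (k + 2) < (G * (t * u)) * ν c' ^ (k + 2) := by
          calc (G * (t * u)) * (G * (t * u * t)) ^ (k + 2) ≤
              (G * (t * u * t)) * (G * (t * u * t)) ^ (k + 2) := Nat.mul_le_mul_right _ hFP
            _ = (G * (t * u * t)) ^ (k + 3) := by ring
            _ ≤ E := c3
            _ ≤ m a0 c * ∏ b ∈ univ.filter (fun b => b ≠ a0 ∧ b ≠ c), ν b :=
              hprod a0 c hca.symm
            _ < (G * (u * t) * ν a0) * ∏ b ∈ univ.filter (fun b => b ≠ a0 ∧ b ≠ c), ν b :=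
              Nat.mul_lt_mul_of_pos_right h2a hprodpos
            _ ≤ (G * (u * t) * ν c') * ν c' ^ (k + 1) :=
              Nat.mul_le_mul (Nat.mul_le_mul_left _ (hmin c')) hprod2
            _ = (G * (t * u)) * ν c' ^ (k + 2) := by ring
        have h6 : (G * (t * u * t)) ^ (k + 2) < ν c' ^ (k + 2) :=
          lt_of_mul_lt_mul_left h5 (Nat.zero_le _)
        exact ((Nat.pow_lt_pow_iff_left (by omega)).1 h6).le
      refine ⟨a0, c', hc'.2.1.symm, F1 a0, fun b hb _ => F3 b hb, hc'F,
        fun b hb _ => hcase b hb, ?_, F2⟩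
      refine le_trans ?_ (hmb c' hc'.2.1 hc'.2.2)
      calc G * (u * t) * ν a0 ≤ G * (u * t) * N := Nat.mul_le_mul_left _ (hνN a0)
        _ = G * (t * u) * N := by ring

end H773X
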