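import Pool.Agent.H773R2.UK.Defs

/-! Task PAR: choice of the parameters (helper692). -/

set_option linter.unusedVariables false

namespace H773X

/-- the first inequality of case B -/
theorem PAR_B1 (e Z X m F t p q : ℝ) (he : 0 < e) (hZ : 0 < Z) (hX : 0 < X) (hp : 0 < p)
    (hq : 0 < q) (hpq : p * q ≤ X ^ 2) (hm : 0 < m) (hm2 : Z * p * m ^ 2 = e)
    (hF : 2 * Z * X * F = e) (hFm : m < F) (ht : (t - 1) * m ≤ F) :
    Z * (t - 1) * q ≤ e := by
  have hF0 : 0 < F := hm.trans hFm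
  -- `4 Z X² ≤ e p`
  have h1 : 4 * Z * X ^ 2 ≤ e * p := by
    have h2 : m ^ 2 ≤ F ^ 2 := by nlinarith
    have h3 : (4 * Z * X ^ 2) * e ≤ (e * p) * e := by
      calc (4 * Z * X ^ 2) * e = (2 * Z * X) ^ 2 * p * m ^ 2 := by rw [← hm2]; ring
        _ ≤ (2 * Z * X) ^ 2 * p * F ^ 2 := mul_le_mul_of_nonneg_left h2 (by positivity)
        _ = (2 * Z * X * F) ^ 2 * p := by ring
        _ = (e * p) * e := by rw [hF]; ring
    exact le_of_mul_le_mul_right h3 he
  -- `Z p q² ≤ 4 X² e`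
  have h2 : Z * p * q ^ 2 ≤ 4 * X ^ 2 * e := by
    have h3 : (p * q) ^ 2 ≤ X ^ 4 := by
      have := pow_le_pow_left₀ (by positivity) hpq 2
      calc (p * q) ^ 2 ≤ (X ^ 2) ^ 2 := this
        _ = X ^ 4 := by ring
    have h4 : (Z * p * q ^ 2) * p ≤ (4 * X ^ 2 * e) * p := by
      calc (Z * p * q ^ 2) * p = Z * (p * q) ^ 2 := by ring
        _ ≤ Z * X ^ 4 := mul_le_mul_of_nonneg_left h3 hZ.le
        _ ≤ 16 * (Z * X ^ 4) := by nlinarith [mul_pos hZ (pow_pos hX 4)]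
        _ = (4 * Z * X ^ 2) * (4 * X ^ 2) := by ring
        _ ≤ (e * p) * (4 * X ^ 2) := mul_le_mul_of_nonneg_right h1 (by positivity)
        _ = (4 * X ^ 2 * e) * p := by ring
    exact le_of_mul_le_mul_right h4 hp
  -- `(Z F q)² ≤ (e m)²`
  have h3 : (Z * q * F) ^ 2 ≤ (e * m) ^ 2 := by
    have h4 : (Z * q * F) ^ 2 * (4 * X ^ 2) ≤ (e * m) ^ 2 * (4 * X ^ 2) := by
      have h5 : (Z * q * F) ^ 2 * (4 * X ^ 2) = e ^ 2 * q ^ 2 := by rw [← hF]; ring
      have h6 : Z * p * ((e * m) ^ 2 * (4 * X ^ 2)) = e ^ 2 * (4 * X ^ 2 * e) := by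
        calc Z * p * ((e * m) ^ 2 * (4 * X ^ 2)) = e ^ 2 * (4 * X ^ 2 * (Z * p * m ^ 2)) := by ring
          _ = _ := by rw [hm2]
      have h7 : Z * p * (e ^ 2 * q ^ 2) ≤ Z * p * ((e * m) ^ 2 * (4 * X ^ 2)) := by
        rw [h6]
        calc Z * p * (e ^ 2 * q ^ 2) = e ^ 2 * (Z * p * q ^ 2) := by ring
          _ ≤ e ^ 2 * (4 * X ^ 2 * e) := mul_le_mul_of_nonneg_left h2 (by positivity)
      rw [h5]
      exact le_of_mul_le_mul_left h7 (by positivity)
    exact le_of_mul_le_mul_right h4 (by positivity)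
  have h4 : Z * q * F ≤ e * m :=
    (pow_le_pow_iff_left₀ (by positivity) (by positivity) (by norm_num)).mp h3
  have h5 : (Z * (t - 1) * q) * m ≤ e * m := by
    calc (Z * (t - 1) * q) * m = Z * q * ((t - 1) * m) := by ring
      _ ≤ Z * q * F := mul_le_mul_of_nonneg_left ht (by positivity)
      _ ≤ e * m := h4
  exact le_of_mul_le_mul_right h5 hm

theorem PAR : S_PAR := by
  intro r n e Z β hr hn he hZ hβ hβ' hen heX
  by_cases hleft : (e : ℝ) ≤ 2 * (Z : ℝ) * (n : ℝ) ^ β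
  · exact Or.inl hleft
  right
  push Not at hleft
  have hn1 : (1 : ℝ) ≤ n := by exact_mod_cast hn
  have hn0 : (0 : ℝ) < n := by linarith
  have he1 : (1 : ℝ) ≤ e := by exact_mod_cast he
  have he0 : (0 : ℝ) < e := by linarith
  have hZ1 : (1 : ℝ) ≤ Z := by exact_mod_cast hZ
  have hZ0 : (0 : ℝ) < Z := by linarith
  have hr3 : (3 : ℝ) ≤ r := by exact_mod_cast hr
  obtain ⟨X, hXdef⟩ : ∃ X : ℝ, X = (n : ℝ) ^ β := ⟨_, rfl⟩
  rw [← hXdef] at hleft ⊢
  have hX0 : 0 < X := by rw [hXdef]; exact Real.rpow_pos_of_pos hn0 _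
  obtain ⟨p, hp⟩ : ∃ p : ℝ, p = (n : ℝ) ^ (r - 2) := ⟨_, rfl⟩
  obtain ⟨q, hq⟩ : ∃ q : ℝ, q = (n : ℝ) ^ (r - 1) := ⟨_, rfl⟩
  have hp1 : 1 ≤ p := by rw [hp]; exact one_le_pow₀ hn1
  have hp0 : 0 < p := by linarith
  have hq0 : 0 < q := by rw [hq]; positivity
  have hpn : p * (n : ℝ) ^ 2 = (n : ℝ) ^ r := by
    rw [hp, ← pow_add]
    congr 1
    omega
  have hpX : p ≤ X := by
    rw [hp, hXdef, ← Real.rpow_natCast]
    apply Real.rpow_le_rpow_of_exponent_le hn1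
    rw [Nat.cast_sub (by omega)]
    push_cast
    linarith
  have hpq : p * q ≤ X ^ 2 := by
    have h1 : X ^ 2 = (n : ℝ) ^ (β * 2) := by
      rw [hXdef, ← Real.rpow_natCast, ← Real.rpow_mul hn0.le]
      norm_num
    have h2 : p * q = (n : ℝ) ^ (2 * r - 3) := by
      rw [hp, hq, ← pow_add]
      congr 1
      omega
    rw [h1, h2, ← Real.rpow_natCast]
    apply Real.rpow_le_rpow_of_exponent_le hn1
    rw [Nat.cast_sub (by omega)]
    push_cast
    linarith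
  have heX' : (e : ℝ) ^ (r - 1) ≤ X ^ r := by
    have h1 : X ^ r = ((n : ℝ) ^ ((r : ℝ) * β / (r - 1))) ^ (r - 1) := by
      rw [hXdef, ← Real.rpow_natCast, ← Real.rpow_natCast, ← Real.rpow_mul hn0.le,
        ← Real.rpow_mul hn0.le]
      congr 1
      rw [Nat.cast_sub (by omega), Nat.cast_one, div_mul_cancel₀ _ (by linarith)]
      ring
    rw [h1]
    exact pow_le_pow_left₀ he0.le heX _
  have hen' : (e : ℝ) ≤ (n : ℝ) ^ r := by exact_mod_cast hen
  obtain ⟨m, hm0, hm2⟩ : ∃ m : ℝ, 0 < m ∧ (Z : ℝ) * p * m ^ 2 = e := by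
    refine ⟨Real.sqrt (e / (Z * p)), Real.sqrt_pos.mpr (by positivity), ?_⟩
    rw [Real.sq_sqrt (by positivity)]
    field_simp
  obtain ⟨F, hF⟩ : ∃ F : ℝ, 2 * (Z : ℝ) * X * F = e := by
    refine ⟨e / (2 * Z * X), ?_⟩
    field_simp
  have hF1 : 1 < F := by
    by_contra hlt
    push Not at hlt
    have : 2 * (Z : ℝ) * X * F ≤ 2 * Z * X * 1 :=
      mul_le_mul_of_nonneg_left hlt (by positivity)
    linarith
  have hF0 : 0 < F := by linarith
  have hmn : m ≤ n := by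
    have h1 : m ^ 2 ≤ (n : ℝ) ^ 2 := by
      have h2 : p * m ^ 2 ≤ p * (n : ℝ) ^ 2 := by
        rw [hpn]
        refine le_trans ?_ hen'
        rw [← hm2, mul_assoc]
        exact le_mul_of_one_le_left (by positivity) hZ1
      exact le_of_mul_le_mul_left h2 hp0
    exact (pow_le_pow_iff_left₀ hm0.le hn0.le (by norm_num)).mp h1
  rcases le_or_gt F m with hFm | hFm
  · have hm1 : 1 < m := lt_of_lt_of_le hF1 hFm
    have hu0 : 1 ≤ ⌊m⌋₊ := Nat.le_floor (by push_cast; linarith)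
    have hu1 : (⌊m⌋₊ : ℝ) ≤ m := Nat.floor_le hm0.le
    have hu2 : m < (⌊m⌋₊ : ℝ) + 1 := Nat.lt_floor_add_one m
    have hu0' : (1 : ℝ) ≤ (⌊m⌋₊ : ℝ) := by exact_mod_cast hu0
    generalize ⌊m⌋₊ = u at hu0 hu1 hu2 hu0'
    refine ⟨1, u, le_refl _, hu0, by simp, ?_, ?_, ?_⟩
    · have h1 : (Z : ℝ) * (1 * (u : ℝ)) ^ 2 * p ≤ e := by
        rw [← hm2, one_mul]
        have h2 : (u : ℝ) ^ 2 ≤ m ^ 2 := pow_le_pow_left₀ (by linarith) hu1 2
        calc (Z : ℝ) * (u : ℝ) ^ 2 * p = Z * p * (u : ℝ) ^ 2 := by ring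
          _ ≤ Z * p * m ^ 2 := mul_le_mul_of_nonneg_left h2 (by positivity)
      rw [hp] at h1
      exact_mod_cast h1
    · have h1 : (Z : ℝ) * (1 * (u : ℝ) * 1) ^ r ≤ e := by
        rw [one_mul, mul_one]
        have h2 : (u : ℝ) ^ r ≤ m ^ r := pow_le_pow_left₀ (by linarith) hu1 r
        have h3 : m ^ r = m ^ (r - 2) * m ^ 2 := by
          rw [← pow_add]
          congr 1
          omega
        have h4 : m ^ (r - 2) ≤ p := by
          rw [hp]
          exact pow_le_pow_left₀ hm0.le hmn _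
        calc (Z : ℝ) * (u : ℝ) ^ r ≤ Z * m ^ r := mul_le_mul_of_nonneg_left h2 hZ0.le
          _ = Z * m ^ 2 * m ^ (r - 2) := by rw [h3]; ring
          _ ≤ Z * m ^ 2 * p := mul_le_mul_of_nonneg_left h4 (by positivity)
          _ = e := by rw [← hm2]; ring
      exact_mod_cast h1
    · push_cast
      rw [one_mul, mul_one]
      have h1 : F ≤ 2 * (u : ℝ) := by linarith
      calc (e : ℝ) = 2 * Z * X * F := hF.symm
        _ ≤ 2 * Z * X * (2 * u) := mul_le_mul_of_nonneg_left h1 (by positivity)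
        _ = 4 * Z * X * u := by ring
  · have hFm1 : 1 < F / m := by rw [lt_div_iff₀ hm0]; linarith
    have ht1 : F / m ≤ (⌈F / m⌉₊ : ℝ) := Nat.le_ceil _
    have ht2 : (⌈F / m⌉₊ : ℝ) < F / m + 1 := Nat.ceil_lt_add_one (by positivity)
    generalize ⌈F / m⌉₊ = t at ht1 ht2
    have ht1' : F ≤ t * m := by rwa [div_le_iff₀ hm0] at ht1
    have ht2' : ((t : ℝ) - 1) * m ≤ F := by
      have h1 : (t : ℝ) - 1 ≤ F / m := by linarith
      rwa [le_div_iff₀ hm0] at h1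
    have ht3 : (t : ℝ) * m ≤ 2 * F := by linarith
    have htR : (1 : ℝ) ≤ t := by linarith
    have ht0 : (0 : ℝ) < t := by linarith
    have htN : 1 ≤ t := by exact_mod_cast htR
    have hmt : 1 ≤ m / t := by
      rw [le_div_iff₀ ht0, one_mul]
      have h2 : 2 * F ≤ m ^ 2 := by
        have h3 : ((Z : ℝ) * p) * (2 * F) ≤ (Z * p) * m ^ 2 := by
          rw [hm2, ← hF]
          have : p * (Z * F) ≤ X * (Z * F) := mul_le_mul_of_nonneg_right hpX (by positivity)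
          nlinarith
        exact le_of_mul_le_mul_left h3 (by positivity)
      have h4 : (t : ℝ) * m ≤ m * m := by nlinarith
      exact le_of_mul_le_mul_right h4 hm0
    have hu1 : (⌊m / t⌋₊ : ℝ) ≤ m / t := Nat.floor_le (by positivity)
    have hu2 : m / t < (⌊m / t⌋₊ : ℝ) + 1 := Nat.lt_floor_add_one _
    have huN : 1 ≤ ⌊m / t⌋₊ := Nat.le_floor (by push_cast; exact hmt)
    generalize ⌊m / t⌋₊ = u at hu1 hu2 huN
    have huR : (1 : ℝ) ≤ u := by exact_mod_cast huN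
    have hu1' : (t : ℝ) * u ≤ m := by
      rw [le_div_iff₀ ht0] at hu1
      linarith
    have hu2' : m ≤ 2 * ((t : ℝ) * u) := by
      have : m < (u + 1) * t := by rwa [div_lt_iff₀ ht0] at hu2
      nlinarith
    refine ⟨t, u, htN, huN, ?_, ?_, ?_, ?_⟩
    · have h1 := PAR_B1 e Z X m F t p q he0 hZ0 hX0 hp0 hq0 hpq hm0 hm2 hF hFm ht2'
      rw [hq] at h1
      have h2 : ((Z * (t - 1) * n ^ (r - 1) : ℕ) : ℝ) ≤ e := by
        push_cast [Nat.cast_sub htN]
        exact h1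
      exact_mod_cast h2
    · have h1 : (Z : ℝ) * ((t : ℝ) * (u : ℝ)) ^ 2 * p ≤ e := by
        rw [← hm2]
        have h2 : ((t : ℝ) * u) ^ 2 ≤ m ^ 2 := pow_le_pow_left₀ (by positivity) hu1' 2
        calc (Z : ℝ) * ((t : ℝ) * (u : ℝ)) ^ 2 * p = Z * p * ((t : ℝ) * (u : ℝ)) ^ 2 := by ring
          _ ≤ Z * p * m ^ 2 := mul_le_mul_of_nonneg_left h2 (by positivity)
      rw [hp] at h1
      exact_mod_cast h1
    · have h1 : (Z : ℝ) * ((t : ℝ) * (u : ℝ) * t) ^ r ≤ e := by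
        have h2 : (t : ℝ) * (u : ℝ) * t ≤ 2 * F := by nlinarith
        have h3 : ((t : ℝ) * (u : ℝ) * t) ^ r ≤ (2 * F) ^ r := pow_le_pow_left₀ (by positivity) h2 r
        have h4 : (Z * X) ^ r * (2 * F) ^ r = (e : ℝ) ^ r := by
          rw [← mul_pow, ← hF]
          congr 1
          ring
        have h5 : (e : ℝ) ^ r = e * (e : ℝ) ^ (r - 1) := by
          rw [← pow_succ']
          congr 1
          omega
        have h6 : (Z : ℝ) * X ^ r ≤ (Z * X) ^ r := by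
          rw [mul_pow]
          apply mul_le_mul_of_nonneg_right _ (by positivity)
          calc (Z : ℝ) = Z ^ 1 := (pow_one _).symm
            _ ≤ Z ^ r := pow_le_pow_right₀ hZ1 (by omega)
        have h7 : X ^ r * (Z * (2 * F) ^ r) ≤ X ^ r * e := by
          calc X ^ r * (Z * (2 * F) ^ r) = (Z * X ^ r) * (2 * F) ^ r := by ring
            _ ≤ (Z * X) ^ r * (2 * F) ^ r := mul_le_mul_of_nonneg_right h6 (by positivity)
            _ = e * (e : ℝ) ^ (r - 1) := by rw [h4, h5]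
            _ ≤ e * X ^ r := mul_le_mul_of_nonneg_left heX' he0.le
            _ = X ^ r * e := by ring
        have h8 : (Z : ℝ) * (2 * F) ^ r ≤ e := le_of_mul_le_mul_left h7 (by positivity)
        exact (mul_le_mul_of_nonneg_left h3 hZ0.le).trans h8
      exact_mod_cast h1
    · push_cast
      have h1 : F ≤ 2 * ((t : ℝ) * u * t) := by nlinarith
      calc (e : ℝ) = 2 * Z * X * F := hF.symm
        _ ≤ 2 * Z * X * (2 * ((t : ℝ) * u * t)) := mul_le_mul_of_nonneg_left h1 (by positivity)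
        _ = 4 * Z * X * (t * u * t) := by ring

end H773X
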