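import Pool.Agent.H773R2.UK.Defs

/-! RG0: dyadic class of one statistic. -/

namespace H773X

open Finset

theorem RG0 : S_RG0 := by
  intro α β _ _ S S1 g κ hS h
  constructor
  · intro v
    by_cases hv : ∃ p ∈ S1, g p = v
    · obtain ⟨p, hp, rfl⟩ := hv
      have h1 : (S1.filter (fun q => g q = g p)).card ≤ (S.filter (fun q => g q = g p)).card :=
        card_le_card (filter_subset_filter _ hS)
      have h2 := Nat.lt_pow_succ_log_self (by norm_num : 1 < 2) (S.filter (fun q => g q = g p)).card
      rw [h p hp] at h2
      omega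
    · have h1 : S1.filter (fun q => g q = v) = ∅ := by
        apply filter_eq_empty_iff.2
        intro q hq hqv
        exact hv ⟨q, hq, hqv⟩
      rw [h1]
      simp
  · have h1 : ∀ v ∈ S1.image g, 2 ^ κ ≤ (S.filter (fun q => g q = v)).card := by
      intro v hv
      obtain ⟨p, hp, rfl⟩ := mem_image.1 hv
      have hne : (S.filter (fun q => g q = g p)).card ≠ 0 :=
        card_ne_zero_of_mem (mem_filter.2 ⟨hS hp, rfl⟩)
      have h2 := Nat.pow_log_le_self 2 hne
      rwa [h p hp] at h2
    have h2 : ∑ v ∈ S1.image g, (S.filter (fun q => g q = v)).card ≤ S.card := by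
      rw [← card_biUnion]
      · apply card_le_card
        intro q hq
        obtain ⟨v, _, hv⟩ := mem_biUnion.1 hq
        exact (mem_filter.1 hv).1
      · intro v _ w _ hvw
        rw [Function.onFun, disjoint_left]
        intro q hq hq'
        exact hvw ((mem_filter.1 hq).2.symm.trans (mem_filter.1 hq').2)
    have h3 : (S1.image g).card * 2 ^ κ ≤ ∑ v ∈ S1.image g, (S.filter (fun q => g q = v)).card := by
      rw [← smul_eq_mul]
      exact card_nsmul_le_sum _ _ _ h1
    rw [pow_succ]
    nlinarith

end H773X
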