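import Pool.Agent.H773R2.UK.Defs

/-! Task RG1 of helper773 (helper634, after H773U.RG1): regularisation by pigeonhole. -/

set_option linter.unusedVariables false

namespace H773X

open Finset

/-- all statistics -/
def RG1_key {r n : ℕ} (S : Tp r n) (p : Fin r → Fin n) : Fin r ⊕ (Fin r × Fin r) → ℕ :=
  Sum.elim (fun a => Nat.log 2 ((S.filter (fun q => q a = p a)).card))
    (fun ab => Nat.log 2 ((S.filter (fun q => (q ab.1, q ab.2) = (p ab.1, p ab.2))).card))

lemma RG1_lt {r n : ℕ} (T : Tp r n) : Nat.log 2 T.card < BB r n := by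
  refine Nat.lt_succ_of_le (Nat.log_mono_right ((card_le_univ T).trans ?_))
  rw [Fintype.card_pi]
  simp

theorem RG1 (h : S_RG0) : S_RG1 := by
  intro r n S hn hS
  set t : Finset (Fin r ⊕ (Fin r × Fin r) → ℕ) := Fintype.piFinset (fun _ => range (BB r n)) with ht
  have htc : t.card = Lam r n := by
    rw [ht, Fintype.card_piFinset]
    simp [Lam, pow_two]
  have hmaps : ∀ p ∈ S, RG1_key S p ∈ t := by
    intro p _
    rw [ht, Fintype.mem_piFinset]
    rintro (a | a)
    · rw [mem_range]; exact RG1_lt _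
    · rw [mem_range]; exact RG1_lt _
  have htne : t.Nonempty := by
    obtain ⟨p, hp⟩ := hS
    exact ⟨_, hmaps p hp⟩
  have hsum : S.card = ∑ y ∈ t, (S.filter (fun p => RG1_key S p = y)).card :=
    card_eq_sum_card_fiberwise hmaps
  obtain ⟨y, hy, hle⟩ : ∃ y ∈ t, S.card ≤ Lam r n * (S.filter (fun p => RG1_key S p = y)).card := by
    apply exists_le_of_sum_le htne
    rw [sum_const, ← mul_sum, ← hsum, htc, smul_eq_mul]
  set S1 := S.filter (fun p => RG1_key S p = y) with hS1
  have hsub : S1 ⊆ S := filter_subset _ _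
  have hne : S1.Nonempty := by
    rw [← card_pos]
    have h1 := hS.card_pos
    by_contra h0
    have h0' : S1.card = 0 := by omega
    rw [h0', mul_zero] at hle
    omega
  have hk1 : ∀ a, ∀ p ∈ S1, Nat.log 2 ((S.filter (fun q => q a = p a)).card) = y (.inl a) := by
    intro a p hp
    rw [hS1, mem_filter] at hp
    rw [← hp.2]; rfl
  have hk2 : ∀ a b : Fin r, ∀ p ∈ S1,
      Nat.log 2 ((S.filter (fun q => (q a, q b) = (p a, p b))).card) = y (.inr (a, b)) := by
    intro a b p hp
    rw [hS1, mem_filter] at hp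
    rw [← hp.2]; rfl
  refine ⟨S1, fun a => 2 ^ (y (.inl a) + 1), fun a b => 2 ^ (y (.inr (a, b)) + 1), hsub, hne,
    hle, ?_, ?_, ?_, ?_⟩
  · intro a v
    have := (h _ _ inferInstance inferInstance S S1 (fun p => p a) (y (.inl a)) hsub (hk1 a)).1 v
    exact this
  · intro a
    have := (h _ _ inferInstance inferInstance S S1 (fun p => p a) (y (.inl a)) hsub (hk1 a)).2
    calc 2 ^ (y (.inl a) + 1) * nn S1 a ≤ 2 * S.card := this
      _ ≤ 2 * (Lam r n * S1.card) := Nat.mul_le_mul_left _ hle
      _ = 2 * Lam r n * S1.card := by ring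
  · intro a b v v' hab
    have := (h _ _ inferInstance inferInstance S S1 (fun p => (p a, p b)) (y (.inr (a, b))) hsub
      (hk2 a b)).1 (v, v')
    refine le_trans (le_of_eq ?_) this
    unfold cg
    congr 1
    ext q
    simp [Prod.mk.injEq]
  · intro a b hab
    have := (h _ _ inferInstance inferInstance S S1 (fun p => (p a, p b)) (y (.inr (a, b))) hsub
      (hk2 a b)).2
    calc 2 ^ (y (.inr (a, b)) + 1) * mm S1 a b ≤ 2 * S.card := this
      _ ≤ 2 * (Lam r n * S1.card) := Nat.mul_le_mul_left _ hle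
      _ = 2 * Lam r n * S1.card := by ring

end H773X
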