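import Pool.Agent.H773R2.UK.Defs

namespace H773X

open Finset Pool.Agent.Results.MP_9dddc4_co.UkExponent

theorem TEC_inj (r t u w : ℕ) : Function.Injective (TEdge r t u w) := by
  intro q q' h
  have h1 : (Sum.inr (Sum.inr q) : TV r t u w) ∈ TEdge r t u w q := by
    unfold TEdge
    simp
  rw [h] at h1
  unfold TEdge at h1
  rw [mem_insert, mem_insert, mem_image] at h1
  rcases h1 with h1 | h1 | ⟨s, -, h1⟩
  · exact absurd h1 (by simp)
  · exact Sum.inr_injective (Sum.inr_injective h1)
  · exact absurd h1 (by simp)

theorem TEC : S_TEC := by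
  intro r t u w
  unfold TE
  rw [card_image_of_injective _ (TEC_inj r t u w), card_univ, Fintype.card_prod,
    Fintype.card_prod, Fintype.card_fin, Fintype.card_fin, Fintype.card_fin]
  ring

end H773X
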