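import Pool.Agent.H773R2.UK.Defs

/-! TRI: `r`-partition. -/

namespace H773X

open Finset Pool.Agent.Results.MP_9dddc4_co.UkExponent

theorem TRI_count {r n : ℕ} (p : Fin r → Fin n) (hp : Function.Injective p) :
    r ^ n ≤ r ^ r * (univ.filter (fun f : Fin n → Fin r => ∀ a, f (p a) = a)).card := by
  classical
  have h1 : (univ : Finset (Fin n → Fin r)).card ≤
      ((univ : Finset (Fin r → Fin r)) ×ˢ
        (univ.filter (fun f : Fin n → Fin r => ∀ a, f (p a) = a))).card := by
    refine card_le_card_of_injOn (fun g => (fun a => g (p a),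
      fun v => if h : ∃ a, p a = v then h.choose else g v)) ?_ ?_
    · intro g _
      rw [mem_coe, mem_product, mem_filter]
      refine ⟨mem_univ _, mem_univ _, fun a => ?_⟩
      have h : ∃ b, p b = p a := ⟨a, rfl⟩
      show (if h : ∃ b, p b = p a then h.choose else g (p a)) = a
      rw [dif_pos h]
      exact hp h.choose_spec
    · intro g _ g' _ hgg
      rw [Prod.mk.injEq] at hgg
      funext v
      by_cases h : ∃ a, p a = v
      · obtain ⟨a, rfl⟩ := h
        exact congrFun hgg.1 a
      · have h2 := congrFun hgg.2 v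
        simp only [dif_neg h] at h2
        exact h2
  rw [card_product, card_univ, card_univ, Fintype.card_fun, Fintype.card_fun, Fintype.card_fin,
    Fintype.card_fin] at h1
  exact h1

theorem TRI : S_TRI := by
  classical
  intro r n H hr hH
  haveI : NeZero r := ⟨by omega⟩
  -- a good colouring
  have hex : ∃ f : Fin n → Fin r,
      H.card ≤ r ^ r * (H.filter (fun s => ∀ a, ∃ v ∈ s, f v = a)).card := by
    by_contra hcon
    push Not at hcon
    have h1 : ∑ f : Fin n → Fin r, r ^ r * (H.filter (fun s => ∀ a, ∃ v ∈ s, f v = a)).card <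
        ∑ _f : Fin n → Fin r, H.card :=
      Finset.sum_lt_sum_of_nonempty univ_nonempty fun f _ => hcon f
    have h2 : ∑ f : Fin n → Fin r, r ^ r * (H.filter (fun s => ∀ a, ∃ v ∈ s, f v = a)).card =
        ∑ s ∈ H, r ^ r * (univ.filter (fun f : Fin n → Fin r => ∀ a, ∃ v ∈ s, f v = a)).card := by
      simp only [card_filter, Finset.mul_sum]
      rw [Finset.sum_comm]
    have h3 : ∑ s ∈ H, r ^ n ≤
        ∑ s ∈ H, r ^ r *
          (univ.filter (fun f : Fin n → Fin r => ∀ a, ∃ v ∈ s, f v = a)).card := by
      apply Finset.sum_le_sum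
      intro s hs
      have hs' : s.card = r := hH s hs
      refine (TRI_count (fun a => s.orderEmbOfFin hs' a)
        (s.orderEmbOfFin hs').injective).trans ?_
      apply Nat.mul_le_mul_left
      apply card_le_card
      intro f hf
      rw [mem_filter] at hf ⊢
      exact ⟨mem_univ _, fun a => ⟨s.orderEmbOfFin hs' a, Finset.orderEmbOfFin_mem s hs' a,
        hf.2 a⟩⟩
    rw [h2] at h1
    have h4 := lt_of_le_of_lt h3 h1
    simp only [sum_const, smul_eq_mul, card_univ, Fintype.card_fun, Fintype.card_fin] at h4
    have h5 : H.card * r ^ n = r ^ n * H.card := by ring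
    omega
  obtain ⟨f, hf⟩ := hex
  refine ⟨f, univ.filter (fun p : Fin r → Fin n => (∀ a, f (p a) = a) ∧
    (univ.image p : Finset (Fin n)) ∈ H), ?_, ?_, ?_⟩
  · intro p hp
    exact (mem_filter.1 hp).2.1
  · intro p hp
    exact (mem_filter.1 hp).2.2
  · refine hf.trans (Nat.mul_le_mul_left _ ?_)
    have hsub : H.filter (fun s => ∀ a, ∃ v ∈ s, f v = a) ⊆
        (univ.filter (fun p : Fin r → Fin n => (∀ a, f (p a) = a) ∧
          (univ.image p : Finset (Fin n)) ∈ H)).image (fun p => univ.image p) := by
      intro s hs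
      obtain ⟨hsH, hs2⟩ := mem_filter.1 hs
      choose p hp1 hp2 using hs2
      have hinj : Function.Injective p := by
        intro a b e
        rw [← hp2 a, ← hp2 b, e]
      have hcard : (univ.image p : Finset (Fin n)).card = r := by
        rw [card_image_of_injective _ hinj, card_univ, Fintype.card_fin]
      have hsubs : (univ.image p : Finset (Fin n)) ⊆ s := by
        intro v hv
        obtain ⟨a, -, rfl⟩ := mem_image.1 hv
        exact hp1 a
      have heq : (univ.image p : Finset (Fin n)) = s :=
        eq_of_subset_of_card_le hsubs (by rw [hcard, hH s hsH])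
      rw [mem_image]
      exact ⟨p, mem_filter.2 ⟨mem_univ _, hp2, by rw [heq]; exact hsH⟩, heq⟩
    exact (card_le_card hsub).trans card_image_le

end H773X
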