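import Pool.Agent.H773R2.UK.Defs

/-!
# UN: the unavoidable hypergraph `T(t,u,t)`
-/

set_option autoImplicit false
set_option linter.unusedVariables false

namespace H773X

open Finset Pool.Agent.Results.MP_9dddc4_co.UkExponent

theorem UN_lam (r n : ℕ) : 1 ≤ Lam r n := by
  unfold Lam BB
  exact Nat.one_le_pow _ _ (Nat.succ_pos _)

/-- the division step. -/
theorem UN_div {s x y z E : ℕ} (hy : 0 < y) (h1 : x * y ≤ z * E) (h2 : s * z ≤ y) :
    s * x ≤ E := by
  have h3 : s * x * y ≤ E * y := by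
    calc s * x * y = s * (x * y) := by ring
      _ ≤ s * (z * E) := Nat.mul_le_mul_left _ h1
      _ = (s * z) * E := by ring
      _ ≤ y * E := Nat.mul_le_mul_right _ h2
      _ = E * y := by ring
  exact Nat.le_of_mul_le_mul_right h3 hy

theorem UN_card {r : ℕ} (a c : Fin r) (hac : a ≠ c) :
    Fintype.card {b : Fin r // b ≠ a ∧ b ≠ c} = r - 2 := by
  classical
  rw [Fintype.card_subtype]
  have h5 : (univ : Finset (Fin r)).filter (fun b => b ≠ a ∧ b ≠ c) =
      (univ.erase a).erase c := by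
    ext x
    simp only [mem_filter, mem_univ, true_and, mem_erase, and_true]
    tauto
  rw [h5, card_erase_of_mem (mem_erase.2 ⟨hac.symm, mem_univ _⟩), card_erase_of_mem (mem_univ _),
    card_univ, Fintype.card_fin]
  omega

theorem UN (hT : S_TRI) (hR : S_RG1) (hC : S_CS) (hB : S_BAS) (hE : S_EM2) (hL : S_LP) : S_UN := by
  classical
  intro r n H t u hr hn ht hu hHr h1 h2 h3
  obtain ⟨f, S, hf, hSH, hcard⟩ := hT r n H (by omega) hHr
  have hL1 := UN_lam r n
  have hZ : 1 ≤ ZZ r n := by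
    unfold ZZ
    have : 0 < r := by omega
    exact Nat.one_le_iff_ne_zero.2 (by positivity)
  have hHpos : 0 < H.card := by
    refine lt_of_lt_of_le ?_ h3
    have : 0 < t * u * t := by positivity
    positivity
  have hSne : S.Nonempty := by
    rw [← Finset.card_pos]
    by_contra hcon
    have h0 : S.card = 0 := by omega
    rw [h0, mul_zero] at hcard
    omega
  obtain ⟨S1, Δ, Γ, hsub, hne, hLc, hdg, hdn, hcg, hcm⟩ := hR r n S hn hSne
  obtain ⟨hBn, hBs, hBm, hB2, hBpr, hB4, hBν, hBp⟩ := hB r n S1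
  have hBp := hBp hne
  have hE1 : 1 ≤ S1.card := Finset.card_pos.2 hne
  obtain ⟨L, hLdef⟩ : ∃ L, L = Lam r n := ⟨_, rfl⟩
  rw [← hLdef] at hL1 hLc hdn hcm
  obtain ⟨E, hEdef⟩ : ∃ E, E = S1.card := ⟨_, rfl⟩
  rw [← hEdef] at hE1 hLc hdn hcm
  obtain ⟨G, hGdef⟩ : ∃ G, G = 32 * r * L := ⟨_, rfl⟩
  have hZZ : ZZ r n = (r ^ r * L) * (2 * L * G ^ r) := by
    unfold ZZ
    rw [hGdef, hLdef]
    ring
  have hrr : 0 < r ^ r := Nat.pow_pos (by omega)
  have hmain : H.card ≤ (r ^ r * L) * E := by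
    calc H.card ≤ r ^ r * S.card := hcard
      _ ≤ r ^ r * (L * E) := Nat.mul_le_mul_left _ hLc
      _ = (r ^ r * L) * E := by ring
  have hrL : 0 < r ^ r * L := Nat.mul_pos hrr hL1
  have hG3 : 3 ≤ G := by
    rw [hGdef]
    have : 1 ≤ r * L := Nat.mul_pos (by omega) hL1
    calc 3 ≤ 32 * 1 := by norm_num
      _ ≤ 32 * (r * L) := Nat.mul_le_mul_left _ this
      _ = 32 * r * L := by ring
  have hG1 : 1 ≤ G := by omega
  have c0 : ∀ X, ZZ r n * X ≤ H.card → (2 * L * G ^ r) * X ≤ E := by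
    intro X hX
    apply Nat.le_of_mul_le_mul_left _ hrL
    calc (r ^ r * L) * (2 * L * G ^ r * X) = ZZ r n * X := by rw [hZZ]; ring
      _ ≤ H.card := hX
      _ ≤ (r ^ r * L) * E := hmain
  have c1 : G * (t - 1) * n ^ (r - 1) ≤ E := by
    refine le_trans ?_ (c0 ((t - 1) * n ^ (r - 1)) (by rw [← mul_assoc]; exact h1))
    have h5 : G ≤ 2 * L * G ^ r := by
      calc G = 1 * G ^ 1 := by ring
        _ ≤ (2 * L) * G ^ r :=
          Nat.mul_le_mul (by omega) (Nat.pow_le_pow_right hG1 (by omega))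
    calc G * (t - 1) * n ^ (r - 1) = G * ((t - 1) * n ^ (r - 1)) := by ring
      _ ≤ (2 * L * G ^ r) * ((t - 1) * n ^ (r - 1)) := Nat.mul_le_mul_right _ h5
  have c2 : 2 * L * G ^ 2 * (t * u) ^ 2 * n ^ (r - 2) ≤ E := by
    refine le_trans ?_ (c0 ((t * u) ^ 2 * n ^ (r - 2)) (by rw [← mul_assoc]; exact h2))
    calc 2 * L * G ^ 2 * (t * u) ^ 2 * n ^ (r - 2) =
        (2 * L * G ^ 2) * ((t * u) ^ 2 * n ^ (r - 2)) := by ring
      _ ≤ (2 * L * G ^ r) * ((t * u) ^ 2 * n ^ (r - 2)) :=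
        Nat.mul_le_mul_right _ (Nat.mul_le_mul_left _ (Nat.pow_le_pow_right hG1 (by omega)))
  have c3 : (G * (t * u * t)) ^ r ≤ E := by
    refine le_trans ?_ (c0 ((t * u * t) ^ r) h3)
    rw [mul_pow]
    refine Nat.mul_le_mul_right _ ?_
    exact Nat.le_mul_of_pos_left _ (by omega)
  have hF4 : ∀ a b c : Fin r, a ≠ b → a ≠ c → b ≠ c →
      E * nn S1 a ≤ 2 * L * mm S1 a b * mm S1 a c * n ^ (r - 3) := by
    intro a b c hab hac hbc
    have h4 := hC r n S1 (Δ a) a b c hab hac hbc (hdg a)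
    rw [← hEdef] at h4
    have h5 := hdn a
    apply Nat.le_of_mul_le_mul_left _ hE1
    calc E * (E * nn S1 a) = E ^ 2 * nn S1 a := by ring
      _ ≤ (Δ a * mm S1 a b * mm S1 a c * n ^ (r - 3)) * nn S1 a := Nat.mul_le_mul_right _ h4
      _ = (Δ a * nn S1 a) * (mm S1 a b * mm S1 a c * n ^ (r - 3)) := by ring
      _ ≤ (2 * L * E) * (mm S1 a b * mm S1 a c * n ^ (r - 3)) := Nat.mul_le_mul_right _ h5
      _ = E * (2 * L * mm S1 a b * mm S1 a c * n ^ (r - 3)) := by ring
  rw [← hEdef] at hB2 hBpr hB4 hBν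
  obtain ⟨a, c, hac, l1, l2, l3, l4, l5, l6⟩ :=
    hL r n E L G t u (nn S1) (mm S1) hr hL1 hG3 ht hu hE1 (fun a => ⟨(hBp a a).1, hBn a⟩) hBs
      (fun a b => ⟨(hBp a b).2, hBm a b⟩) hB2 hBpr hB4 hF4 hBν c1 c2 c3
  have hGL : 16 * L ≤ G := by
    rw [hGdef]
    calc 16 * L = 16 * 1 * L := by ring
      _ ≤ 32 * r * L := Nat.mul_le_mul_right _ (Nat.mul_le_mul (by norm_num) (by omega))
  obtain ⟨x, y, z, hx, hy, hz, hp⟩ :=
    hE r n S1 a c t u t Δ (Γ a) hac ht hu ht hne hdg
      (by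
        rw [← hEdef]
        exact UN_div (hBp a a).1 (hdn a) (by
          calc 8 * (t - 1) * (2 * L) = (16 * L) * (t - 1) := by ring
            _ ≤ G * (t - 1) := Nat.mul_le_mul_right _ hGL
            _ ≤ _ := l1))
      (by
        intro b hba hbc
        rw [← hEdef]
        exact UN_div (hBp b b).1 (hdn b) (by
          calc 8 * r * (t * u) * (2 * L) = (16 * r * L) * (t * u) := by ring
            _ ≤ (32 * r * L) * (t * u) :=
              Nat.mul_le_mul_right _ (Nat.mul_le_mul_right _ (Nat.mul_le_mul_right _ (by norm_num)))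
            _ = G * (t * u) := by rw [hGdef]
            _ ≤ _ := l2 b hba hbc))
      (by
        rw [← hEdef]
        exact UN_div (hBp c c).1 (hdn c) (by
          calc 8 * (t * u * t) * (2 * L) = (16 * L) * (t * u * t) := by ring
            _ ≤ G * (t * u * t) := Nat.mul_le_mul_right _ hGL
            _ ≤ _ := l3))
      (fun b hba v v' => hcg a b v v' hba.symm)
      (by
        intro b hba hbc
        rw [← hEdef]
        have := UN_div (s := 16 * r * u * nn S1 a) (hBp a b).2 (hcm a b hba.symm)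
          (by calc 16 * r * u * nn S1 a * (2 * L) = (32 * r * L) * u * nn S1 a := by ring
                _ = G * u * nn S1 a := by rw [hGdef]
                _ ≤ _ := l4 b hba hbc)
        calc 16 * r * u * Γ a b * nn S1 a = 16 * r * u * nn S1 a * Γ a b := by ring
          _ ≤ _ := this)
      (by
        rw [← hEdef]
        have := UN_div (s := 16 * (u * t) * nn S1 a) (hBp a c).2 (hcm a c hac)
          (by calc 16 * (u * t) * nn S1 a * (2 * L) = (32 * L) * ((u * t) * nn S1 a) := by ring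
                _ ≤ G * ((u * t) * nn S1 a) := by
                  refine Nat.mul_le_mul_right _ ?_
                  rw [hGdef]
                  calc 32 * L = 32 * 1 * L := by ring
                    _ ≤ 32 * r * L :=
                      Nat.mul_le_mul_right _ (Nat.mul_le_mul_left _ (by omega))
                _ = G * (u * t) * nn S1 a := by ring
                _ ≤ _ := l5)
        calc 16 * (u * t) * Γ a c * nn S1 a = 16 * (u * t) * nn S1 a * Γ a c := by ring
          _ ≤ _ := this)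
      (by rw [← hEdef]; exact l6)
  have j0 : Fin u := ⟨0, hu⟩
  have l0 : Fin t := ⟨0, ht⟩
  have hfx : ∀ i, f (x i) = a := by
    intro i
    obtain ⟨p, hpS, hpa, _, _⟩ := hp i j0 l0
    rw [← hpa]
    exact hf p (hsub hpS) a
  have hfy : ∀ i j b, b ≠ a → b ≠ c → f (y i j b) = b := by
    intro i j b hba hbc
    obtain ⟨p, hpS, _, _, hpb⟩ := hp i j l0
    rw [← hpb b hba hbc]
    exact hf p (hsub hpS) b
  have hfz : ∀ i j l, f (z i j l) = c := by
    intro i j l
    obtain ⟨p, hpS, _, hpc, _⟩ := hp i j l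
    rw [← hpc]
    exact hf p (hsub hpS) c
  let σ : Fin (r - 2) ≃ {b : Fin r // b ≠ a ∧ b ≠ c} :=
    (Fintype.equivFinOfCardEq (UN_card a c hac)).symm
  refine ⟨Sum.elim x (Sum.elim (fun q => y q.1 q.2.1 (σ q.2.2).1) (fun q => z q.1 q.2.1 q.2.2)),
    ?_, ?_⟩
  · refine (Sum.elim_injective).2 ⟨hx, (Sum.elim_injective).2 ⟨?_, hz, ?_⟩, ?_⟩
    · rintro ⟨i, j, s⟩ ⟨i', j', s'⟩ h
      have h' : y i j (σ s).1 = y i' j' (σ s').1 := h
      have h5 : (σ s).1 = (σ s').1 := by
        rw [← hfy i j (σ s).1 (σ s).2.1 (σ s).2.2, h',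
          hfy i' j' (σ s').1 (σ s').2.1 (σ s').2.2]
      have h6 : s = s' := σ.injective (Subtype.ext h5)
      subst h6
      have h7 := hy (σ s).1 (σ s).2.1 (σ s).2.2 (a₁ := (i, j)) (a₂ := (i', j')) h'
      rw [Prod.mk.injEq] at h7
      rw [h7.1, h7.2]
    · rintro ⟨i, j, s⟩ ⟨i', j', l'⟩ h
      have h' : y i j (σ s).1 = z i' j' l' := h
      apply (σ s).2.2
      rw [← hfy i j (σ s).1 (σ s).2.1 (σ s).2.2, h', hfz]
    · rintro i (⟨i', j', s⟩ | ⟨i', j', l'⟩) h
      · have h' : x i = y i' j' (σ s).1 := h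
        apply (σ s).2.1
        rw [← hfy i' j' (σ s).1 (σ s).2.1 (σ s).2.2, ← h', hfx]
      · have h' : x i = z i' j' l' := h
        apply hac
        rw [← hfx i, h', hfz]
  · intro e he
    unfold img at he
    obtain ⟨e', he', rfl⟩ := mem_image.1 he
    unfold TE at he'
    obtain ⟨q, -, rfl⟩ := mem_image.1 he'
    obtain ⟨i, j, l⟩ := q
    obtain ⟨p, hpS, hpa, hpc, hpb⟩ := hp i j l
    have h5 : ((TEdge r t u t (i, j, l)).image
        (Sum.elim x (Sum.elim (fun q => y q.1 q.2.1 (σ q.2.2).1) (fun q => z q.1 q.2.1 q.2.2)))) =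
        (univ.image p : Finset (Fin n)) := by
      unfold TEdge
      rw [image_insert, image_insert, image_image]
      ext v
      simp only [mem_insert, mem_image, mem_univ, true_and, Function.comp_apply, Sum.elim_inl,
        Sum.elim_inr]
      constructor
      · rintro (rfl | rfl | ⟨s, rfl⟩)
        · exact ⟨a, hpa⟩
        · exact ⟨c, hpc⟩
        · exact ⟨(σ s).1, hpb _ (σ s).2.1 (σ s).2.2⟩
      · rintro ⟨b, rfl⟩
        by_cases hba : b = a
        · left
          rw [hba, hpa]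
        · by_cases hbc : b = c
          · right; left
            rw [hbc, hpc]
          · right; right
            refine ⟨σ.symm ⟨b, hba, hbc⟩, ?_⟩
            rw [Equiv.apply_symm_apply]
            exact (hpb b hba hbc).symm
    rw [h5]
    exact hSH p (hsub hpS)

end H773X
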