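import Pool.Agent.H773R2.UK.Defs

set_option autoImplicit false

namespace H773X

open Finset Pool.Agent.Results.MP_9dddc4_co.UkExponent

theorem UPR_card {n r : ℕ} (H : ES n) (hH : IsRGraph r H) : H.card ≤ n ^ r := by
  have h1 : H ⊆ Finset.powersetCard r Finset.univ := by
    intro e he
    rw [Finset.mem_powersetCard]
    exact ⟨Finset.subset_univ _, hH e he⟩
  have h2 := Finset.card_le_card h1
  rw [Finset.card_powersetCard, Finset.card_univ, Fintype.card_fin] at h2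
  exact h2.trans (Nat.choose_le_pow n r)

theorem UPR_ZZ (r n : ℕ) (hr : 3 ≤ r) : 1 ≤ ZZ r n := by
  have h1 : 0 < BB r n := Nat.succ_pos _
  have h2 : 0 < Lam r n := pow_pos h1 _
  have h3 : 0 < r := by omega
  have h4 : 0 < ZZ r n := by
    unfold ZZ
    positivity
  exact h4

theorem UPR (h1 : S_COMR) (h2 : S_UN) (h3 : S_PAR) (h4 : S_OVA) (h5 : S_BTB) (h6 : S_GRR)
    (h7 : S_LOG) : S_UPR := by
  intro r k hr hk
  obtain ⟨C, D, hC, hL⟩ := h7 r hr
  refine ⟨C, D, hC, ?_⟩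
  intro n hn
  have hk3 : 3 ≤ k := by omega
  obtain ⟨hb1, hb2⟩ := h5 r k hr hk
  obtain ⟨b, hb⟩ : ∃ b : ℝ, b = bt r k := ⟨_, rfl⟩
  rw [← hb] at hb1 hb2
  have hn1 : (1 : ℝ) ≤ n := by exact_mod_cast (by omega : 1 ≤ n)
  have hr3 : (3 : ℝ) ≤ r := by exact_mod_cast hr
  have hZ := UPR_ZZ r n hr
  have hZ1 : (1 : ℝ) ≤ ZZ r n := by exact_mod_cast hZ
  have hnb : (1 : ℝ) ≤ (n : ℝ) ^ b := Real.one_le_rpow hn1 (by linarith)
  have hM1 : (1 : ℝ) ≤ 4 * (ZZ r n : ℝ) * (n : ℝ) ^ b := by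
    have : (1 : ℝ) ≤ (ZZ r n : ℝ) * (n : ℝ) ^ b := one_le_mul_of_one_le_of_one_le hZ1 hnb
    linarith
  have key := h6 r n k (4 * (ZZ r n : ℝ) * (n : ℝ) ^ b) (by omega) (by omega) hM1 (by
    intro H e he hH hcard
    by_cases hcase : (e : ℝ) ≤ (n : ℝ) ^ ((r : ℝ) * b / (r - 1))
    · have hen : e ≤ n ^ r := by
        rw [← hcard ⟨0, by omega⟩]
        exact UPR_card _ (hH _)
      rcases h3 r n e (ZZ r n) b hr (by omega) he hZ hb1 hb2 hen hcase with h | ⟨t, u, ht, hu, a1, a2, a3, a4⟩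
      · refine ⟨1, le_rfl, common_one (by omega) H hH e he hcard, ?_⟩
        have : 0 ≤ (ZZ r n : ℝ) * (n : ℝ) ^ b := by positivity
        push_cast
        linarith
      · refine ⟨t * u * t, Nat.mul_pos (Nat.mul_pos ht hu) ht, h1 k n r t u t H (by omega) ?_, a4⟩
        intro i
        refine h2 r n (H i) t u hr (by omega) ht hu (hH i) ?_ ?_ ?_
        · rw [hcard i]; exact a1
        · rw [hcard i]; exact a2
        · rw [hcard i]; exact a3
    · push Not at hcase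
      obtain ⟨s, hs, hs2⟩ := common_overlap (by omega : 0 < k) H hH hcard
      refine ⟨s, ?_, hs, ?_⟩
      · by_contra hcon
        have h0 : s = 0 := by omega
        rw [h0, zero_mul] at hs2
        have : 0 < e ^ k := pow_pos he k
        omega
      · have h8 := h4 r n k e s hr (by omega) (by omega) he (by rw [← hb]; exact hcase.le) hs2
        rw [← hb] at h8
        have h9 : (n : ℝ) ^ b * s ≤ 4 * (ZZ r n : ℝ) * ((n : ℝ) ^ b * s) :=
          le_mul_of_one_le_left (by positivity) (by linarith)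
        calc (e : ℝ) ≤ (n : ℝ) ^ b * s := h8
          _ ≤ 4 * (ZZ r n : ℝ) * ((n : ℝ) ^ b * s) := h9
          _ = _ := by ring)
  rw [← hb]
  calc (U k n r : ℝ) ≤ 4 * (ZZ r n : ℝ) * (n : ℝ) ^ b * (1 + r * Real.log n) := key
    _ = (n : ℝ) ^ b * (4 * (ZZ r n : ℝ) * (1 + r * Real.log n)) := by ring
    _ ≤ (n : ℝ) ^ b * (C * (Real.log n) ^ D) := by
        refine mul_le_mul_of_nonneg_left (hL n hn) (by positivity)
    _ = _ := by ring

end H773X
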